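import Pool.Agent.Helper30.TW.Slide
import Pool.Agent.Helper41.TW.Two

/-!
# Counting the ascending states of a diagram with twist regions
-/

set_option autoImplicit false

namespace Pool.Agent.Helper61.TW

open Pool.Agent.Helper85.Exp Classical Finset

/-- subsets with at most one element of `R` -/
theorem sum_split {α β : Type*} [AddCommMonoid β] (φ : Finset α → β) (Y R : Finset α) (hd : Disjoint Y R)
    (h : ∀ S ⊆ Y ∪ R, ∀ x ∈ S, ∀ y ∈ S, x ∈ R → y ∈ R → x ≠ y → φ S = 0) :
    ∑ S ∈ (Y ∪ R).powerset, φ S = ∑ T ∈ Y.powerset, (φ T + ∑ x ∈ R, φ (insert x T)) := by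
  induction R using Finset.induction_on with
  | empty => simp
  | insert x R hx ih =>
    rw [disjoint_insert_right] at hd
    have hxY : x ∉ Y ∪ R := by
      rw [mem_union, not_or]
      exact ⟨hd.1, hx⟩
    have e1 : Y ∪ insert x R = insert x (Y ∪ R) := union_insert _ _ _
    rw [e1, sum_powerset_insert hxY, ih hd.2 (fun S hS y hy z hz hyR hzR hyz => h S (hS.trans (by rw [e1]; exact subset_insert _ _)) y hy z hz
      (mem_insert_of_mem hyR) (mem_insert_of_mem hzR) hyz)]
    have e2 : ∑ S ∈ (Y ∪ R).powerset, φ (insert x S) = ∑ T ∈ Y.powerset, φ (insert x T) := by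
      symm
      apply sum_subset (powerset_mono.2 subset_union_left)
      intro S hS hSY
      rw [mem_powerset] at hS
      rw [mem_powerset] at hSY
      obtain ⟨y, hyS, hyY⟩ := not_subset.1 hSY
      have hyR : y ∈ R := (mem_union.1 (hS hyS)).resolve_left hyY
      refine h (insert x S) (by rw [e1]; exact insert_subset_insert _ hS) x (mem_insert_self _ _) y (mem_insert_of_mem hyS) (mem_insert_self _ _)
        (mem_insert_of_mem hyR) ?_
      rintro rfl
      exact hx hyR
    rw [e2, ← sum_add_distrib]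
    refine sum_congr rfl fun T _ => ?_
    rw [sum_insert hx]
    abel

/-- an alternating sequence -/
theorem alt_count (f : ℕ → Bool) (m : ℕ) (hf : ∀ r, r + 1 < m → f (r + 1) = !f r) :
    ∀ n ≤ m, (n % 2 = 0 → 2 * ((range n).filter fun r => f r = true).card = n) ∧
      (n % 2 = 1 → (f (n - 1) = true → 2 * ((range n).filter fun r => f r = true).card = n + 1) ∧
        (f (n - 1) = false → 2 * ((range n).filter fun r => f r = true).card + 1 = n)) := by
  intro n
  induction n with
  | zero => simp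
  | succ n ih =>
    intro hn
    obtain ⟨i1, i2⟩ := ih (by omega)
    have hc : ((range (n + 1)).filter fun r => f r = true).card =
        ((range n).filter fun r => f r = true).card + if f n = true then 1 else 0 := by
      rw [range_add_one, filter_insert]
      split_ifs with h
      · rw [card_insert_of_notMem (by simp)]
      · rfl
    rw [hc]
    rcases Nat.mod_two_eq_zero_or_one n with h0 | h0
    · refine ⟨fun h => by omega, fun _ => ?_⟩
      have := i1 h0
      rw [Nat.add_sub_cancel]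
      refine ⟨fun h => ?_, fun h => ?_⟩
      · rw [if_pos h]
        omega
      · rw [if_neg (by rw [h]; decide)]
        omega
    · refine ⟨fun _ => ?_, fun h => by omega⟩
      obtain ⟨j1, j2⟩ := i2 h0
      have hfn : f n = !f (n - 1) := by
        have := hf (n - 1) (by omega)
        rwa [Nat.sub_add_cancel (by omega)] at this
      cases h3 : f (n - 1) with
      | true =>
        have := j1 h3
        rw [hfn, h3, if_neg (by decide)]
        omega
      | false =>
        have := j2 h3
        rw [hfn, h3, if_pos (by decide)]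
        omega

theorem alt_bounds (f : ℕ → Bool) (m : ℕ) (hf : ∀ r, r + 1 < m → f (r + 1) = !f r) :
    (m / 2 ≤ ((range m).filter fun r => f r = true).card ∧ ((range m).filter fun r => f r = true).card ≤ (m + 1) / 2) ∧
    (m / 2 ≤ ((range m).filter fun r => f r = false).card ∧ ((range m).filter fun r => f r = false).card ≤ (m + 1) / 2) := by
  have h1 := alt_count f m hf m le_rfl
  have h2 : ((range m).filter fun r => f r = true).card + ((range m).filter fun r => f r = false).card = m := by
    have := card_filter_add_card_filter_not (s := range m) (fun r => f r = true)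
    rw [card_range] at this
    have e : ((range m).filter fun r => ¬ f r = true) = (range m).filter fun r => f r = false := by
      apply filter_congr
      intro r _
      cases f r <;> simp
    rw [e] at this
    exact this
  rcases Nat.mod_two_eq_zero_or_one m with h0 | h0
  · have := h1.1 h0
    omega
  · cases h3 : f (m - 1) with
    | true =>
      have := (h1.2 h0).1 h3
      omega
    | false =>
      have := (h1.2 h0).2 h3
      omega

section count

variable {P : Type} {G : Sh P} {A : Finset P} {m : P → ℕ} {b : P}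

/-- `p` is a passage of the region of `a` -/
def In (G : Sh P) (m : P → ℕ) (a p : P) : Prop := ∃ r < m a, p = G.nxt^[r] a ∨ p = G.op (G.nxt^[r] a)

/-- the representative of a crossing of the region -/
noncomputable def xr (G : Sh P) (a : P) (r : ℕ) : P := if G.lf (G.nxt^[r] a) = true then G.nxt^[r] a else G.op (G.nxt^[r] a)

/-- the factor of a crossing -/
noncomputable def om (G : Sh P) (m : P → ℕ) (b : P) (w : P → ℝ) (A' S : Finset P) (x : P) : ℝ :=
  if ∃ a ∈ A', In G m a x then (if Bef G b S x (G.op x) then 1 else 0) else w x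

/-- the weight of a state -/
noncomputable def ph (G : Sh P) (m : P → ℕ) (b : P) (w : P → ℝ) (j : ℕ) (A' S : Finset P) : ℝ :=
  if Sg G b S ∧ S.card = j then ∏ x ∈ S, om G m b w A' S x else 0

theorem in_op {a p : P} : In G m a (G.op p) ↔ In G m a p := by
  have key : ∀ q, In G m a q → In G m a (G.op q) := by
    rintro q ⟨r, hr, h | h⟩
    · exact ⟨r, hr, Or.inr (by rw [h])⟩
    · exact ⟨r, hr, Or.inl (by rw [h, G.op_op])⟩
  refine ⟨fun h => ?_, key p⟩
  have := key _ h
  rwa [G.op_op] at this

theorem in_unique (hT : Twist G A m) {a a' p : P} (ha : a ∈ A) (ha' : a' ∈ A) (h : In G m a p) (h' : In G m a' p) : a = a' := by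
  obtain ⟨r, hr, h⟩ := h
  obtain ⟨r', hr', h'⟩ := h'
  rcases h with h | h <;> rcases h' with h' | h'
  · exact (hT.inj a ha a' ha' r hr r' hr' (Or.inl (h.symm.trans h'))).1
  · exact (hT.inj a ha a' ha' r hr r' hr' (Or.inr (h.symm.trans h'))).1
  · exact ((hT.inj a' ha' a ha r' hr' r hr (Or.inr (h'.symm.trans h))).1).symm
  · exact (hT.inj a ha a' ha' r hr r' hr' (Or.inl (op_inj G (h.symm.trans h')))).1

theorem bef_total {S : Finset P} (h : Sg G b S) {i j : P} (hij : i ≠ j) :
    (Bef G b S i j ∧ ¬ Bef G b S j i) ∨ (Bef G b S j i ∧ ¬ Bef G b S i j) := by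
  have key : ∀ i j, Nat.find (h i) < Nat.find (h j) → Bef G b S i j ∧ ¬ Bef G b S j i := by
    intro i j hlt
    refine ⟨fun k hk => ⟨_, hlt.trans_le (Nat.find_min' (h j) hk), Nat.find_spec (h i)⟩, fun hb => ?_⟩
    obtain ⟨l, hl, hl'⟩ := hb _ (Nat.find_spec (h i))
    have := Nat.find_min' (h j) hl'
    omega
  rcases lt_trichotomy (Nat.find (h i)) (Nat.find (h j)) with h1 | h1 | h1
  · exact Or.inl (key i j h1)
  · exfalso
    apply hij
    rw [← Nat.find_spec (h i), ← Nat.find_spec (h j), h1]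
  · exact Or.inr (key j i h1)

theorem xr_or (a : P) (r : ℕ) : xr G a r = G.nxt^[r] a ∨ xr G a r = G.op (G.nxt^[r] a) := by
  unfold xr
  split_ifs
  · exact Or.inl rfl
  · exact Or.inr rfl

/-- Sliding in a region. -/
theorem inv_one (ho : ∀ i, G.op i ≠ i) (hT : Twist G A m) (hb : b ∈ A) {a : P} (ha : a ∈ A) {T : Finset P} (hTa : ∀ x ∈ T, ¬ In G m a x)
    {r : ℕ} (hr : r + 1 < m a) :
    (Sg G b (insert (xr G a r) T) ↔ Sg G b (insert (xr G a (r + 1)) T)) ∧
    (∀ y, ¬ In G m a y → (Bef G b (insert (xr G a r) T) y (G.op y) ↔ Bef G b (insert (xr G a (r + 1)) T) y (G.op y))) ∧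
    (Bef G b (insert (xr G a r) T) (G.nxt^[r] a) (G.op (G.nxt^[r] a)) ↔
      Bef G b (insert (xr G a (r + 1)) T) (G.nxt^[r + 1] a) (G.op (G.nxt^[r + 1] a))) ∧
    (Bef G b (insert (xr G a r) T) (G.op (G.nxt^[r] a)) (G.nxt^[r] a) ↔
      Bef G b (insert (xr G a (r + 1)) T) (G.op (G.nxt^[r + 1] a)) (G.nxt^[r + 1] a)) := by
  have i0 : In G m a (G.nxt^[r] a) := ⟨r, by omega, Or.inl rfl⟩
  have i1 : In G m a (G.nxt^[r + 1] a) := ⟨r + 1, hr, Or.inl rfl⟩
  have i2 := in_op.2 i0
  have i3 := in_op.2 i1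
  have hne : G.nxt^[r] a ≠ G.nxt^[r + 1] a := fun h => by
    have := (hT.inj a ha a ha r (by omega) (r + 1) hr (Or.inl h)).2
    omega
  have hne2 : G.nxt^[r] a ≠ G.op (G.nxt^[r + 1] a) := fun h => by
    have := (hT.inj a ha a ha r (by omega) (r + 1) hr (Or.inr h)).2
    omega
  have hne3 : G.op (G.nxt^[r] a) ≠ G.nxt^[r + 1] a := fun h => hne2 (by rw [← h, G.op_op])
  have hm1 : 1 ≤ m b := hT.pos b hb
  have b1 : b ≠ G.op (G.nxt^[r] a) := fun h => by
    obtain ⟨e1, e2⟩ := hT.inj b hb a ha 0 (by omega) r (by omega) (Or.inr h)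
    rw [← e2, e1, Function.iterate_zero_apply] at h
    exact ho a h.symm
  have b2 : b ≠ G.nxt^[r + 1] a := fun h => by
    obtain ⟨e1, e2⟩ := hT.inj b hb a ha 0 (by omega) (r + 1) hr (Or.inl h)
    omega
  have hs := Pool.Agent.Helper30.TW.slide G ho (u := G.nxt^[r] a) (u' := G.nxt^[r + 1] a) (v := G.op (G.nxt^[r] a))
    (v' := G.op (G.nxt^[r + 1] a)) (b := b) (Function.iterate_succ_apply' _ _ _).symm rfl rfl (hT.big a ha r hr) hne hne2 hne3
    (fun h => hne (op_inj G h)) (T := T) (fun h => hTa _ h i0) (fun h => hTa _ h i2) (fun h => hTa _ h i1)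
    (fun h => hTa _ h i3) b1 b2 (xr_or a r) (xr_or a (r + 1))
  refine ⟨hs.1, fun y hy => ?_, hs.2.2.1, hs.2.2.2⟩
  have hy' : ¬ In G m a (G.op y) := fun h => hy (in_op.1 h)
  exact hs.2.1 y (G.op y) (fun h => hy (h ▸ i2)) (fun h => hy (h ▸ i1)) (fun h => hy' (h ▸ i2)) (fun h => hy' (h ▸ i1))

theorem inv_all (ho : ∀ i, G.op i ≠ i) (hT : Twist G A m) (hb : b ∈ A) {a : P} (ha : a ∈ A) {T : Finset P} (hTa : ∀ x ∈ T, ¬ In G m a x)
    {r : ℕ} (hr : r < m a) :
    (Sg G b (insert (xr G a r) T) ↔ Sg G b (insert (xr G a 0) T)) ∧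
    (∀ y, ¬ In G m a y → (Bef G b (insert (xr G a r) T) y (G.op y) ↔ Bef G b (insert (xr G a 0) T) y (G.op y))) ∧
    (Bef G b (insert (xr G a r) T) (G.nxt^[r] a) (G.op (G.nxt^[r] a)) ↔
      Bef G b (insert (xr G a 0) T) a (G.op a)) ∧
    (Bef G b (insert (xr G a r) T) (G.op (G.nxt^[r] a)) (G.nxt^[r] a) ↔
      Bef G b (insert (xr G a 0) T) (G.op a) a) := by
  induction r with
  | zero => exact ⟨Iff.rfl, fun _ _ => Iff.rfl, Iff.rfl, Iff.rfl⟩
  | succ r ih =>
    obtain ⟨j1, j2, j3, j4⟩ := ih (by omega)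
    obtain ⟨k1, k2, k3, k4⟩ := inv_one ho hT hb ha hTa hr
    exact ⟨k1.symm.trans j1, fun y hy => (k2 y hy).symm.trans (j2 y hy), k3.symm.trans j3, k4.symm.trans j4⟩

/-- the number of the allowed positions -/
theorem allowed (ho : ∀ i, G.op i ≠ i) (hT : Twist G A m) (hb : b ∈ A) {a : P} (ha : a ∈ A) {T : Finset P} (hTa : ∀ x ∈ T, ¬ In G m a x)
    (hS : Sg G b (insert (xr G a 0) T)) :
    m a / 2 ≤ ((range (m a)).filter fun r => Bef G b (insert (xr G a r) T) (xr G a r) (G.op (xr G a r))).card ∧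
    ((range (m a)).filter fun r => Bef G b (insert (xr G a r) T) (xr G a r) (G.op (xr G a r))).card ≤ (m a + 1) / 2 := by
  have hal := alt_bounds (fun r => G.lf (G.nxt^[r] a)) (m a) (fun r hr => hT.alt a ha r hr)
  have hcase := bef_total hS (show a ≠ G.op a from fun h => ho a h.symm)
  rcases hcase with ⟨c1, c2⟩ | ⟨c1, c2⟩
  · have e : ((range (m a)).filter fun r => Bef G b (insert (xr G a r) T) (xr G a r) (G.op (xr G a r))) =
        (range (m a)).filter fun r => G.lf (G.nxt^[r] a) = true := by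
      apply filter_congr
      intro r hr
      obtain ⟨_, _, j3, j4⟩ := inv_all ho hT hb ha hTa (mem_range.1 hr)
      by_cases hl : G.lf (G.nxt^[r] a) = true
      · have hx : xr G a r = G.nxt^[r] a := if_pos hl
        rw [hx] at j3 ⊢
        exact iff_of_true (j3.2 c1) hl
      · have hx : xr G a r = G.op (G.nxt^[r] a) := if_neg hl
        rw [hx] at j4 ⊢
        rw [G.op_op]
        exact iff_of_false (fun h => c2 (j4.1 h)) hl
    rw [e]
    exact hal.1
  · have e : ((range (m a)).filter fun r => Bef G b (insert (xr G a r) T) (xr G a r) (G.op (xr G a r))) =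
        (range (m a)).filter fun r => G.lf (G.nxt^[r] a) = false := by
      apply filter_congr
      intro r hr
      obtain ⟨_, _, j3, j4⟩ := inv_all ho hT hb ha hTa (mem_range.1 hr)
      by_cases hl : G.lf (G.nxt^[r] a) = true
      · have hx : xr G a r = G.nxt^[r] a := if_pos hl
        rw [hx] at j3 ⊢
        exact iff_of_false (fun h => c2 (j3.1 h)) (by rw [hl]; decide)
      · have hx : xr G a r = G.op (G.nxt^[r] a) := if_neg hl
        rw [hx] at j4 ⊢
        rw [G.op_op]
        refine iff_of_true (j4.2 c1) ?_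
        simpa using hl
    rw [e]
    exact hal.2

variable [Fintype P]

/-- the crossings of the region -/
noncomputable def Rg (G : Sh P) (m : P → ℕ) (a : P) : Finset P := (Xs G).filter fun x => In G m a x

theorem xr_mem (ho : ∀ i, G.op i ≠ i) {a : P} {r : ℕ} (hr : r < m a) : xr G a r ∈ Rg G m a := by
  unfold Rg Xs
  rw [mem_filter, mem_filter]
  refine ⟨⟨mem_univ _, ?_⟩, ?_⟩
  · unfold xr
    split_ifs with h
    · exact h
    · rw [G.lf_op _ (ho _)]
      simpa using h
  · rcases xr_or (G := G) a r with h | h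
    · rw [h]
      exact ⟨r, hr, Or.inl rfl⟩
    · rw [h]
      exact ⟨r, hr, Or.inr rfl⟩

theorem sum_rg (ho : ∀ i, G.op i ≠ i) (hT : Twist G A m) {a : P} (ha : a ∈ A) (f : P → ℝ) :
    ∑ x ∈ Rg G m a, f x = ∑ r ∈ range (m a), f (xr G a r) := by
  symm
  apply sum_bij (fun r _ => xr G a r)
  · intro r hr
    exact xr_mem ho (mem_range.1 hr)
  · intro r hr r' hr' h
    rw [mem_range] at hr hr'
    rcases xr_or (G := G) a r with h1 | h1 <;> rcases xr_or (G := G) a r' with h2 | h2 <;> rw [h1, h2] at h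
    · exact (hT.inj a ha a ha r hr r' hr' (Or.inl h)).2
    · exact (hT.inj a ha a ha r hr r' hr' (Or.inr h)).2
    · exact ((hT.inj a ha a ha r' hr' r hr (Or.inr h.symm)).2).symm
    · exact (hT.inj a ha a ha r hr r' hr' (Or.inl (op_inj G h))).2
  · intro x hx
    unfold Rg Xs at hx
    rw [mem_filter, mem_filter] at hx
    obtain ⟨⟨_, hl⟩, r, hr, h⟩ := hx
    refine ⟨r, mem_range.2 hr, ?_⟩
    unfold xr
    rcases h with h | h
    · rw [← h, if_pos hl]
    · rw [h] at hl ⊢
      rw [G.lf_op _ (ho _)] at hl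
      rw [if_neg]
      simpa using hl
  · intro r _
    rfl

/-- **One region.** -/
theorem cstep (ho : ∀ i, G.op i ≠ i) (hT : Twist G A m) (hb : b ∈ A) {w : P → ℝ} (hw : ∀ x, 0 ≤ w x) (j : ℕ) {A' : Finset P} (hA' : A' ⊆ A) {a : P}
    (ha : a ∈ A) (haA : a ∉ A') :
    (∑ r ∈ range (m a), w (xr G a r) ≤ (m a / 2 : ℕ) →
      ∑ S ∈ (Xs G).powerset, ph G m b w j A' S ≤ ∑ S ∈ (Xs G).powerset, ph G m b w j (insert a A') S) ∧
    (((m a + 1) / 2 : ℕ) ≤ ∑ r ∈ range (m a), w (xr G a r) →
      ∑ S ∈ (Xs G).powerset, ph G m b w j (insert a A') S ≤ ∑ S ∈ (Xs G).powerset, ph G m b w j A' S) := by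
  obtain ⟨Y, hY⟩ : ∃ Y : Finset P, Y = (Xs G).filter fun x => ¬ In G m a x := ⟨_, rfl⟩
  have hU : Xs G = Y ∪ Rg G m a := by
    rw [hY]
    unfold Rg
    rw [union_comm, filter_union_filter_not_eq]
  have hd : Disjoint Y (Rg G m a) := by
    rw [hY]
    unfold Rg
    exact (disjoint_filter_filter_not _ _ _).symm
  have hz : ∀ B : Finset P, ∀ S ⊆ Y ∪ Rg G m a, ∀ x ∈ S, ∀ y ∈ S, x ∈ Rg G m a → y ∈ Rg G m a → x ≠ y → ph G m b w j B S = 0 := by
    intro B S _ x hx y hy hxR hyR hxy
    unfold ph
    rw [if_neg]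
    rintro ⟨hS, _⟩
    unfold Rg Xs at hxR hyR
    rw [mem_filter, mem_filter] at hxR hyR
    obtain ⟨⟨_, lx⟩, r, hr, h⟩ := hxR
    obtain ⟨⟨_, ly⟩, r', hr', h'⟩ := hyR
    have m1 : G.nxt^[r] a ∈ S ∨ G.op (G.nxt^[r] a) ∈ S := by
      rcases h with h | h
      · exact Or.inl (h ▸ hx)
      · exact Or.inr (h ▸ hx)
    have m2 : G.nxt^[r'] a ∈ S ∨ G.op (G.nxt^[r'] a) ∈ S := by
      rcases h' with h' | h'
      · exact Or.inl (h' ▸ hy)
      · exact Or.inr (h' ▸ hy)
    rcases lt_trichotomy r r' with hlt | heq | hlt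
    · exact Pool.Agent.Helper41.TW.two hT ho ha hlt hr' m1 m2 b hS
    · subst heq
      rcases h with h | h <;> rcases h' with h' | h'
      · exact hxy (h.trans h'.symm)
      · rw [h', G.lf_op _ (ho _), ← h, lx] at ly
        exact absurd ly (by decide)
      · rw [h, G.lf_op _ (ho _), ← h', ly] at lx
        exact absurd lx (by decide)
      · exact hxy (h.trans h'.symm)
    · exact Pool.Agent.Helper41.TW.two hT ho ha hlt hr m2 m1 b hS
  have e : ∀ B : Finset P, ∑ S ∈ (Xs G).powerset, ph G m b w j B S =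
      ∑ T ∈ Y.powerset, (ph G m b w j B T + ∑ r ∈ range (m a), ph G m b w j B (insert (xr G a r) T)) := by
    intro B
    rw [hU, sum_split (ph G m b w j B) Y (Rg G m a) hd (hz B)]
    refine sum_congr rfl fun T _ => ?_
    rw [sum_rg ho hT ha (fun x => ph G m b w j B (insert x T))]
  rw [e, e]
  -- one set `T`
  have hTT : ∀ T ∈ Y.powerset, ∀ x ∈ T, ¬ In G m a x := by
    intro T hTY x hx
    have := mem_powerset.1 hTY hx
    rw [hY, mem_filter] at this
    exact this.2
  have om_eq : ∀ S x, ¬ In G m a x → om G m b w (insert a A') S x = om G m b w A' S x := by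
    intro S x hx
    unfold om
    have : (∃ a' ∈ insert a A', In G m a' x) ↔ ∃ a' ∈ A', In G m a' x := by
      constructor
      · rintro ⟨a', h1, h2⟩
        rcases mem_insert.1 h1 with h1 | h1
        · exact absurd (h1 ▸ h2) hx
        · exact ⟨a', h1, h2⟩
      · rintro ⟨a', h1, h2⟩
        exact ⟨a', mem_insert_of_mem h1, h2⟩
    by_cases h : ∃ a' ∈ A', In G m a' x
    · rw [if_pos h, if_pos (this.2 h)]
    · rw [if_neg h, if_neg (fun h' => h (this.1 h'))]
  have same : ∀ T ∈ Y.powerset, ph G m b w j (insert a A') T = ph G m b w j A' T := by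
    intro T hTY
    unfold ph
    split_ifs with h
    · exact prod_congr rfl fun x hx => om_eq T x (hTT T hTY x hx)
    · rfl
  have main : ∀ T ∈ Y.powerset, ∃ K c : ℝ, 0 ≤ K ∧ ((m a / 2 : ℕ) : ℝ) ≤ c ∧ c ≤ ((m a + 1) / 2 : ℕ) ∧
      ∑ r ∈ range (m a), ph G m b w j A' (insert (xr G a r) T) = K * ∑ r ∈ range (m a), w (xr G a r) ∧
      ∑ r ∈ range (m a), ph G m b w j (insert a A') (insert (xr G a r) T) = K * c := by
    intro T hTY
    have hTa := hTT T hTY
    have hnot : ∀ r < m a, xr G a r ∉ T := by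
      intro r hr h
      refine hTa _ h ?_
      rcases xr_or (G := G) a r with h1 | h1
      · exact ⟨r, hr, Or.inl h1⟩
      · exact ⟨r, hr, Or.inr h1⟩
    by_cases hS : Sg G b (insert (xr G a 0) T) ∧ T.card + 1 = j
    · obtain ⟨hS, hj⟩ := hS
      obtain ⟨c1, c2⟩ := allowed ho hT hb ha hTa hS
      have hSr : ∀ r < m a, Sg G b (insert (xr G a r) T) := fun r hr => (inv_all ho hT hb ha hTa hr).1.2 hS
      have hprod : ∀ r < m a, ∏ x ∈ T, om G m b w A' (insert (xr G a r) T) x = ∏ x ∈ T, om G m b w A' (insert (xr G a 0) T) x := by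
        intro r hr
        refine prod_congr rfl fun x hx => ?_
        have h2 := (inv_all ho hT hb ha hTa hr).2.1 x (hTa x hx)
        unfold om
        split_ifs with h3 h4 h5 h5
        · rfl
        · exact absurd (h2.1 h4) h5
        · exact absurd (h2.2 h5) h4
        · rfl
        · rfl
      refine ⟨∏ x ∈ T, om G m b w A' (insert (xr G a 0) T) x,
        (((range (m a)).filter fun r => Bef G b (insert (xr G a r) T) (xr G a r) (G.op (xr G a r))).card : ℝ), ?_, ?_, ?_, ?_, ?_⟩
      · refine prod_nonneg fun x _ => ?_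
        unfold om
        split_ifs
        · norm_num
        · norm_num
        · exact hw x
      · exact_mod_cast c1
      · exact_mod_cast c2
      · rw [mul_sum]
        refine sum_congr rfl fun r hr => ?_
        rw [mem_range] at hr
        unfold ph
        rw [if_pos ⟨hSr r hr, by rw [card_insert_of_notMem (hnot r hr), hj]⟩, prod_insert (hnot r hr), hprod r hr]
        have : om G m b w A' (insert (xr G a r) T) (xr G a r) = w (xr G a r) := by
          unfold om
          rw [if_neg]
          rintro ⟨a', h1, h2⟩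
          have h3 : In G m a (xr G a r) := by
            rcases xr_or (G := G) a r with h4 | h4
            · exact ⟨r, hr, Or.inl h4⟩
            · exact ⟨r, hr, Or.inr h4⟩
          exact haA (in_unique hT ha (hA' h1) h3 h2 ▸ h1)
        rw [this, mul_comm]
      · rw [card_filter, Nat.cast_sum, mul_sum]
        refine sum_congr rfl fun r hr => ?_
        rw [mem_range] at hr
        unfold ph
        rw [if_pos ⟨hSr r hr, by rw [card_insert_of_notMem (hnot r hr), hj]⟩, prod_insert (hnot r hr)]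
        have e1 : ∏ x ∈ T, om G m b w (insert a A') (insert (xr G a r) T) x = ∏ x ∈ T, om G m b w A' (insert (xr G a 0) T) x := by
          rw [← hprod r hr]
          exact prod_congr rfl fun x hx => om_eq _ x (hTa x hx)
        have e2 : om G m b w (insert a A') (insert (xr G a r) T) (xr G a r) =
            if Bef G b (insert (xr G a r) T) (xr G a r) (G.op (xr G a r)) then 1 else 0 := by
          unfold om
          rw [if_pos]
          refine ⟨a, mem_insert_self _ _, ?_⟩
          rcases xr_or (G := G) a r with h4 | h4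
          · exact ⟨r, hr, Or.inl h4⟩
          · exact ⟨r, hr, Or.inr h4⟩
        rw [e1, e2, mul_comm]
        push_cast
        rfl
    · refine ⟨0, (m a / 2 : ℕ), le_rfl, le_rfl, by exact_mod_cast Nat.div_le_div_right (by omega), ?_, ?_⟩
      all_goals
        rw [zero_mul]
        refine sum_eq_zero fun r hr => ?_
        rw [mem_range] at hr
        unfold ph
        rw [if_neg]
        rintro ⟨h1, h2⟩
        exact hS ⟨(inv_all ho hT hb ha hTa hr).1.1 h1, by rw [card_insert_of_notMem (hnot r hr)] at h2; exact h2⟩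
  constructor
  · intro hle
    refine sum_le_sum fun T hTY => ?_
    obtain ⟨K, c, k0, k1, k2, k3, k4⟩ := main T hTY
    rw [k3, k4, same T hTY]
    have := mul_le_mul_of_nonneg_left (hle.trans k1) k0
    linarith
  · intro hle
    refine sum_le_sum fun T hTY => ?_
    obtain ⟨K, c, k0, k1, k2, k3, k4⟩ := main T hTY
    rw [k3, k4, same T hTY]
    have := mul_le_mul_of_nonneg_left (k2.trans hle) k0
    linarith

/-- **Counting.** -/
theorem count (ho : ∀ i, G.op i ≠ i) (hT : Twist G A m) (hb : b ∈ A) {nab : Dg G → Polynomial ℤ} (h : Cw Polynomial.X 1 b nab) (D : Dg G)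
    (hD : ∀ i, D.st i = .pos) {w : P → ℝ} (hw : ∀ x, 0 ≤ w x) (j : ℕ) :
    ((∀ a ∈ A, ∑ r ∈ range (m a), w (xr G a r) ≤ (m a / 2 : ℕ)) →
      ∑ S ∈ ((Xs G).powersetCard j).filter (fun S => Sg G b S), ∏ x ∈ S, w x ≤ ((nab D).coeff j : ℝ)) ∧
    ((∀ a ∈ A, ((m a + 1) / 2 : ℕ) ≤ ∑ r ∈ range (m a), w (xr G a r)) →
      ((nab D).coeff j : ℝ) ≤ ∑ S ∈ ((Xs G).powersetCard j).filter (fun S => Sg G b S), ∏ x ∈ S, w x) := by
  have e0 : ∑ S ∈ ((Xs G).powersetCard j).filter (fun S => Sg G b S), ∏ x ∈ S, w x = ∑ S ∈ (Xs G).powerset, ph G m b w j ∅ S := by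
    rw [sum_filter, powersetCard_eq_filter, sum_filter]
    refine sum_congr rfl fun S _ => ?_
    unfold ph
    by_cases h1 : S.card = j
    · by_cases h2 : Sg G b S
      · rw [if_pos h1, if_pos h2, if_pos ⟨h2, h1⟩]
        refine prod_congr rfl fun x _ => ?_
        unfold om
        rw [if_neg (by simp)]
      · rw [if_pos h1, if_neg h2, if_neg fun h3 => h2 h3.1]
    · rw [if_neg h1, if_neg fun h3 => h1 h3.2]
  have e1 : ((nab D).coeff j : ℝ) = ∑ S ∈ (Xs G).powerset, ph G m b w j A S := by
    rw [coeff_eq ho h D hD j]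
    push_cast
    rw [card_filter, powersetCard_eq_filter, sum_filter]
    push_cast
    refine sum_congr rfl fun S _ => ?_
    have hom : ∀ x, om G m b w A S x = if Bef G b S x (G.op x) then 1 else 0 := by
      intro x
      unfold om
      rw [if_pos]
      obtain ⟨a, ha, r, hr, hx⟩ := hT.cov x
      exact ⟨a, ha, r, hr, hx⟩
    have hr : ph G m b w j A S = if Sg G b S ∧ S.card = j then ∏ x ∈ S, (if Bef G b S x (G.op x) then (1 : ℝ) else 0) else 0 := by
      unfold ph
      simp only [hom]
    rw [hr]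
    by_cases h1 : S.card = j
    · rw [if_pos h1]
      by_cases h2 : Sg G b S
      · rw [if_pos (show Sg G b S ∧ S.card = j from ⟨h2, h1⟩)]
        by_cases h3 : ∀ i ∈ S, Bef G b S i (G.op i)
        · rw [if_pos (show Sg G b S ∧ ∀ i ∈ S, Bef G b S i (G.op i) from ⟨h2, h3⟩), prod_congr rfl fun x hx => if_pos (h3 x hx), prod_const_one]
        · rw [if_neg (show ¬ (Sg G b S ∧ ∀ i ∈ S, Bef G b S i (G.op i)) from fun h4 => h3 h4.2)]
          push Not at h3
          obtain ⟨x, hx, h4⟩ := h3
          exact (prod_eq_zero hx (by rw [if_neg h4])).symm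
      · rw [if_neg (show ¬ (Sg G b S ∧ ∀ i ∈ S, Bef G b S i (G.op i)) from fun h4 => h2 h4.1),
          if_neg (show ¬ (Sg G b S ∧ S.card = j) from fun h4 => h2 h4.1)]
    · rw [if_neg h1, if_neg (show ¬ (Sg G b S ∧ S.card = j) from fun h4 => h1 h4.2)]
  rw [e0, e1]
  constructor
  · intro hle
    have key : ∀ A' ⊆ A, ∑ S ∈ (Xs G).powerset, ph G m b w j ∅ S ≤ ∑ S ∈ (Xs G).powerset, ph G m b w j A' S := by
      intro A'
      induction A' using Finset.induction_on with
      | empty => intro _; exact le_rfl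
      | insert a A' haA ih =>
        intro hsub
        have hA' : A' ⊆ A := (subset_insert _ _).trans hsub
        have ha : a ∈ A := hsub (mem_insert_self _ _)
        exact (ih hA').trans ((cstep ho hT hb hw j hA' ha haA).1 (hle a ha))
    exact key A subset_rfl
  · intro hle
    have key : ∀ A' ⊆ A, ∑ S ∈ (Xs G).powerset, ph G m b w j A' S ≤ ∑ S ∈ (Xs G).powerset, ph G m b w j ∅ S := by
      intro A'
      induction A' using Finset.induction_on with
      | empty => intro _; exact le_rfl
      | insert a A' haA ih =>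
        intro hsub
        have hA' : A' ⊆ A := (subset_insert _ _).trans hsub
        have ha : a ∈ A := hsub (mem_insert_self _ _)
        exact ((cstep ho hT hb hw j hA' ha haA).2 (hle a ha)).trans (ih hA')
    exact key A subset_rfl

end count

end Pool.Agent.Helper61.TW
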