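import Pool.Agent.Helper85.EV2.Exp

/-!
# Antiparallel twist regions: definitions
-/

set_option autoImplicit false

namespace Pool.Agent.Helper61.TW

open Pool.Agent.Helper85.Exp Classical

variable {P : Type}

/-- The crossings of `G` are decomposed into twist regions with antiparallel strands: `A` are first passages, the region of `a ∈ A` has `m a` crossings, its one strand runs through
the passages `a, nxt a, nxt (nxt a), ...`, the other strand in the opposite direction; two consecutive crossings bound a bigon. -/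
structure Twist (G : Sh P) (A : Finset P) (m : P → ℕ) : Prop where
  pos : ∀ a ∈ A, 1 ≤ m a
  cov : ∀ p, ∃ a ∈ A, ∃ r < m a, p = G.nxt^[r] a ∨ p = G.op (G.nxt^[r] a)
  inj : ∀ a ∈ A, ∀ a' ∈ A, ∀ r < m a, ∀ r' < m a', (G.nxt^[r] a = G.nxt^[r'] a' ∨ G.nxt^[r] a = G.op (G.nxt^[r'] a')) →
    a = a' ∧ r = r'
  big : ∀ a ∈ A, ∀ r, r + 1 < m a → G.nxt (G.op (G.nxt^[r + 1] a)) = G.op (G.nxt^[r] a)
  alt : ∀ a ∈ A, ∀ r, r + 1 < m a → G.lf (G.nxt^[r + 1] a) = !G.lf (G.nxt^[r] a)

/-- The travelling map when the crossings of the passages in `S` are smoothed. -/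
noncomputable def trS (G : Sh P) (S : Finset P) (i : P) : P := G.nxt (if i ∈ S ∨ G.op i ∈ S then G.op i else i)

/-- One component. -/
def Sg (G : Sh P) (b : P) (S : Finset P) : Prop := ∀ i, ∃ k : ℕ, (trS G S)^[k] b = i

/-- `i` is met before `j` in the travel from `b`. -/
def Bef (G : Sh P) (b : P) (S : Finset P) (i j : P) : Prop := ∀ k : ℕ, (trS G S)^[k] b = j → ∃ l < k, (trS G S)^[l] b = i

/-- The crossings, each represented by one passage. -/
noncomputable def Xs [Fintype P] (G : Sh P) : Finset P := Finset.univ.filter fun i => G.lf i = true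

/-- The number of the sets of `j` crossings whose smoothing gives one component. -/
noncomputable def Ns [Fintype P] (G : Sh P) (b : P) (j : ℕ) : ℕ := (((Xs G).powersetCard j).filter fun S => Sg G b S).card

theorem trS_eq (G : Sh P) (D : Dg G) (hD : ∀ i, D.st i = .pos) (S : Finset P) : (D.sm S).tr = trS G S := by
  funext i
  change G.nxt (if (D.sm S).st i = .smooth then G.op i else i) = G.nxt (if i ∈ S ∨ G.op i ∈ S then G.op i else i)
  by_cases h : i ∈ S ∨ G.op i ∈ S
  · rw [if_pos (sm_st_mem D S i h), if_pos h]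
  · rw [if_neg h, if_neg]
    rw [not_or] at h
    rw [sm_st_not D S i h.1 h.2, hD]
    decide

/-- The coefficients of the Conway polynomial. -/
theorem coeff_eq [Fintype P] {G : Sh P} (ho : ∀ i, G.op i ≠ i) {nab : Dg G → Polynomial ℤ} {b : P} (h : Cw Polynomial.X 1 b nab) (D : Dg G)
    (hD : ∀ i, D.st i = .pos) (j : ℕ) :
    (nab D).coeff j = ((((Xs G).powersetCard j).filter fun S => Sg G b S ∧ ∀ i ∈ S, Bef G b S i (G.op i)).card : ℕ) := by
  rw [coeff_expand h D (fun i _ => Or.inl (hD i)) j]
  have e1 : unv D b 0 = Xs G := by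
    ext i
    rw [mem_unv]
    unfold Low Xs
    simp [ho i, hD i]
  rw [e1]
  congr 2
  apply Finset.filter_congr
  intro S _
  unfold Asc Sg Bef
  rw [trS_eq G D hD S]

end Pool.Agent.Helper61.TW
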