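import Pool.Agent.Helper61.TW.Count

/-!
# The coefficients of the Conway polynomial of a diagram with twist regions, exactly
-/

set_option autoImplicit false

namespace Pool.Agent.Helper61.TW

open Pool.Agent.Helper85.Exp Classical Finset

variable {P : Type} {G : Sh P} {A : Finset P} {m : P → ℕ} {b : P}

/-- the number of the crossings of the region of `a` whose lower passage is on the strand of `a` -/
noncomputable def nT (G : Sh P) (m : P → ℕ) (a : P) : ℕ := ((range (m a)).filter fun r => G.lf (G.nxt^[r] a) = true).card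

/-- the crossing of `x` is met first on the strand of `a` -/
def dirT (G : Sh P) (m : P → ℕ) (b : P) (S : Finset P) (a x : P) : Prop :=
  ∃ r < m a, (x = G.nxt^[r] a ∧ Bef G b S x (G.op x)) ∨ (x = G.op (G.nxt^[r] a) ∧ Bef G b S (G.op x) x)

/-- the proportion of the allowed positions in the region of `a` -/
noncomputable def va (G : Sh P) (m : P → ℕ) (b : P) (S : Finset P) (a x : P) : ℝ :=
  if dirT G m b S a x then (nT G m a : ℝ) / m a else ((m a : ℝ) - nT G m a) / m a

/-- the proportion of the allowed positions in the region of `x` -/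
noncomputable def vS (G : Sh P) (m : P → ℕ) (b : P) (A S : Finset P) (x : P) : ℝ :=
  ∑ a ∈ A.filter fun a => In G m a x, va G m b S a x

/-- the factor of a crossing -/
noncomputable def om' (G : Sh P) (m : P → ℕ) (b : P) (A A' S : Finset P) (x : P) : ℝ :=
  if ∃ a ∈ A', In G m a x then (if Bef G b S x (G.op x) then 1 else 0) else vS G m b A S x

/-- the weight of a state -/
noncomputable def ph' (G : Sh P) (m : P → ℕ) (b : P) (A : Finset P) (j : ℕ) (A' S : Finset P) : ℝ :=
  if Sg G b S ∧ S.card = j then ∏ x ∈ S, om' G m b A A' S x else 0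

theorem vS_eq (hT : Twist G A m) {a x : P} (ha : a ∈ A) (h : In G m a x) (S : Finset P) : vS G m b A S x = va G m b S a x := by
  have e : (A.filter fun a => In G m a x) = {a} := by
    ext a'
    rw [mem_filter, mem_singleton]
    constructor
    · rintro ⟨h1, h2⟩
      exact in_unique hT h1 ha h2 h
    · rintro rfl
      exact ⟨ha, h⟩
  unfold vS
  rw [e, sum_singleton]

theorem in_xr {a : P} {r : ℕ} (hr : r < m a) : In G m a (xr G a r) := by
  rcases xr_or (G := G) a r with h | h
  · exact ⟨r, hr, Or.inl h⟩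
  · exact ⟨r, hr, Or.inr h⟩

theorem vS_inv (ho : ∀ i, G.op i ≠ i) (hT : Twist G A m) (hb : b ∈ A) {a : P} (ha : a ∈ A) {T : Finset P} (hTa : ∀ x ∈ T, ¬ In G m a x)
    {r : ℕ} (hr : r < m a) {x : P} (hx : ¬ In G m a x) :
    vS G m b A (insert (xr G a r) T) x = vS G m b A (insert (xr G a 0) T) x := by
  have h2 := (inv_all ho hT hb ha hTa hr).2.1
  have k1 := h2 x hx
  have k2 := h2 (G.op x) (fun h => hx (in_op.1 h))
  rw [G.op_op] at k2
  unfold vS
  refine sum_congr rfl fun a' _ => ?_
  have e : dirT G m b (insert (xr G a r) T) a' x ↔ dirT G m b (insert (xr G a 0) T) a' x := by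
    unfold dirT
    rw [k1, k2]
  unfold va
  by_cases h : dirT G m b (insert (xr G a 0) T) a' x
  · rw [if_pos h, if_pos (e.2 h)]
  · rw [if_neg h, if_neg fun h' => h (e.1 h')]

/-- both sides of one region -/
theorem exact_one (ho : ∀ i, G.op i ≠ i) (hT : Twist G A m) (hb : b ∈ A) {a : P} (ha : a ∈ A) {T : Finset P} (hTa : ∀ x ∈ T, ¬ In G m a x)
    (hS : Sg G b (insert (xr G a 0) T)) :
    ∑ r ∈ range (m a), va G m b (insert (xr G a r) T) a (xr G a r) =
      (((range (m a)).filter fun r => Bef G b (insert (xr G a r) T) (xr G a r) (G.op (xr G a r))).card : ℝ) := by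
  have hm : 0 < m a := hT.pos a ha
  have hm0 : (m a : ℝ) ≠ 0 := by exact_mod_cast hm.ne'
  have inj1 : ∀ r < m a, ∀ r' < m a, G.nxt^[r] a = G.op (G.nxt^[r'] a) → False := by
    intro r hr r' hr' h
    obtain ⟨_, e⟩ := hT.inj a ha a ha r hr r' hr' (Or.inr h)
    subst e
    exact ho _ h.symm
  rcases bef_total hS (show a ≠ G.op a from fun h => ho a h.symm) with ⟨c1, c2⟩ | ⟨c1, c2⟩
  · have e : ((range (m a)).filter fun r => Bef G b (insert (xr G a r) T) (xr G a r) (G.op (xr G a r))) =
        (range (m a)).filter fun r => G.lf (G.nxt^[r] a) = true := by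
      apply filter_congr
      intro r hr
      obtain ⟨_, _, j3, j4⟩ := inv_all ho hT hb ha hTa (mem_range.1 hr)
      by_cases hl : G.lf (G.nxt^[r] a) = true
      · have hx : xr G a r = G.nxt^[r] a := if_pos hl
        rw [hx] at j3 ⊢
        exact iff_of_true (j3.2 c1) hl
      · have hx : xr G a r = G.op (G.nxt^[r] a) := if_neg hl
        rw [hx] at j4 ⊢
        rw [G.op_op]
        exact iff_of_false (fun h => c2 (j4.1 h)) hl
    rw [e]
    have e2 : ∀ r ∈ range (m a), va G m b (insert (xr G a r) T) a (xr G a r) = (nT G m a : ℝ) / m a := by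
      intro r hr
      rw [mem_range] at hr
      obtain ⟨_, _, j3, j4⟩ := inv_all ho hT hb ha hTa hr
      have hd : dirT G m b (insert (xr G a r) T) a (xr G a r) := by
        refine ⟨r, hr, ?_⟩
        rcases xr_or (G := G) a r with hx | hx
        · left
          refine ⟨hx, ?_⟩
          rw [hx] at j3 ⊢
          exact j3.2 c1
        · right
          refine ⟨hx, ?_⟩
          rw [hx] at j3 ⊢
          rw [G.op_op]
          exact j3.2 c1
      unfold va
      rw [if_pos hd]
    rw [sum_congr rfl e2, sum_const, card_range, nsmul_eq_mul, mul_div_cancel₀ _ hm0]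
    rfl
  · have e : ((range (m a)).filter fun r => Bef G b (insert (xr G a r) T) (xr G a r) (G.op (xr G a r))) =
        (range (m a)).filter fun r => ¬ G.lf (G.nxt^[r] a) = true := by
      apply filter_congr
      intro r hr
      obtain ⟨_, _, j3, j4⟩ := inv_all ho hT hb ha hTa (mem_range.1 hr)
      by_cases hl : G.lf (G.nxt^[r] a) = true
      · have hx : xr G a r = G.nxt^[r] a := if_pos hl
        rw [hx] at j3 ⊢
        exact iff_of_false (fun h => c2 (j3.1 h)) (not_not.2 hl)
      · have hx : xr G a r = G.op (G.nxt^[r] a) := if_neg hl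
        rw [hx] at j4 ⊢
        rw [G.op_op]
        exact iff_of_true (j4.2 c1) hl
    rw [e]
    have e2 : ∀ r ∈ range (m a), va G m b (insert (xr G a r) T) a (xr G a r) = ((m a : ℝ) - nT G m a) / m a := by
      intro r hr
      rw [mem_range] at hr
      obtain ⟨_, _, j3, j4⟩ := inv_all ho hT hb ha hTa hr
      have hd : ¬ dirT G m b (insert (xr G a r) T) a (xr G a r) := by
        rintro ⟨r', hr', ⟨h1, h2⟩ | ⟨h1, h2⟩⟩
        · rcases xr_or (G := G) a r with hx | hx
          · rw [hx] at h2 j3
            exact c2 (j3.1 h2)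
          · exact inj1 r' hr' r hr (h1.symm.trans hx)
        · rcases xr_or (G := G) a r with hx | hx
          · exact inj1 r hr r' hr' (hx.symm.trans h1)
          · rw [hx] at h2 j3
            rw [G.op_op] at h2
            exact c2 (j3.1 h2)
      unfold va
      rw [if_neg hd]
    rw [sum_congr rfl e2, sum_const, card_range, nsmul_eq_mul, mul_div_cancel₀ _ hm0]
    have h3 := card_filter_add_card_filter_not (s := range (m a)) (fun r => G.lf (G.nxt^[r] a) = true)
    rw [card_range] at h3
    have h4 : nT G m a + ((range (m a)).filter fun r => ¬ G.lf (G.nxt^[r] a) = true).card = m a := h3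
    have h5 : (m a : ℝ) = nT G m a + ((range (m a)).filter fun r => ¬ G.lf (G.nxt^[r] a) = true).card := by exact_mod_cast h4.symm
    linarith

variable [Fintype P]

/-- **One region, exactly.** -/
theorem estep (ho : ∀ i, G.op i ≠ i) (hT : Twist G A m) (hb : b ∈ A) (j : ℕ) {A' : Finset P} (hA' : A' ⊆ A) {a : P}
    (ha : a ∈ A) (haA : a ∉ A') :
    ∑ S ∈ (Xs G).powerset, ph' G m b A j A' S = ∑ S ∈ (Xs G).powerset, ph' G m b A j (insert a A') S := by
  obtain ⟨Y, hY⟩ : ∃ Y : Finset P, Y = (Xs G).filter fun x => ¬ In G m a x := ⟨_, rfl⟩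
  have hU : Xs G = Y ∪ Rg G m a := by
    rw [hY]
    unfold Rg
    rw [union_comm, filter_union_filter_not_eq]
  have hd : Disjoint Y (Rg G m a) := by
    rw [hY]
    unfold Rg
    exact (disjoint_filter_filter_not _ _ _).symm
  have hz : ∀ B : Finset P, ∀ S ⊆ Y ∪ Rg G m a, ∀ x ∈ S, ∀ y ∈ S, x ∈ Rg G m a → y ∈ Rg G m a → x ≠ y → ph' G m b A j B S = 0 := by
    intro B S _ x hx y hy hxR hyR hxy
    unfold ph'
    rw [if_neg]
    rintro ⟨hS, _⟩
    unfold Rg Xs at hxR hyR
    rw [mem_filter, mem_filter] at hxR hyR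
    obtain ⟨⟨_, lx⟩, r, hr, h⟩ := hxR
    obtain ⟨⟨_, ly⟩, r', hr', h'⟩ := hyR
    have m1 : G.nxt^[r] a ∈ S ∨ G.op (G.nxt^[r] a) ∈ S := by
      rcases h with h | h
      · exact Or.inl (h ▸ hx)
      · exact Or.inr (h ▸ hx)
    have m2 : G.nxt^[r'] a ∈ S ∨ G.op (G.nxt^[r'] a) ∈ S := by
      rcases h' with h' | h'
      · exact Or.inl (h' ▸ hy)
      · exact Or.inr (h' ▸ hy)
    rcases lt_trichotomy r r' with hlt | heq | hlt
    · exact Pool.Agent.Helper41.TW.two hT ho ha hlt hr' m1 m2 b hS
    · subst heq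
      rcases h with h | h <;> rcases h' with h' | h'
      · exact hxy (h.trans h'.symm)
      · rw [h', G.lf_op _ (ho _), ← h, lx] at ly
        exact absurd ly (by decide)
      · rw [h, G.lf_op _ (ho _), ← h', ly] at lx
        exact absurd lx (by decide)
      · exact hxy (h.trans h'.symm)
    · exact Pool.Agent.Helper41.TW.two hT ho ha hlt hr m2 m1 b hS
  have e : ∀ B : Finset P, ∑ S ∈ (Xs G).powerset, ph' G m b A j B S =
      ∑ T ∈ Y.powerset, (ph' G m b A j B T + ∑ r ∈ range (m a), ph' G m b A j B (insert (xr G a r) T)) := by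
    intro B
    rw [hU, sum_split (ph' G m b A j B) Y (Rg G m a) hd (hz B)]
    refine sum_congr rfl fun T _ => ?_
    rw [sum_rg ho hT ha (fun x => ph' G m b A j B (insert x T))]
  rw [e, e]
  refine sum_congr rfl fun T hTY => ?_
  have hTa : ∀ x ∈ T, ¬ In G m a x := by
    intro x hx
    have := mem_powerset.1 hTY hx
    rw [hY, mem_filter] at this
    exact this.2
  have om_eq : ∀ S x, ¬ In G m a x → om' G m b A (insert a A') S x = om' G m b A A' S x := by
    intro S x hx
    unfold om'
    have : (∃ a' ∈ insert a A', In G m a' x) ↔ ∃ a' ∈ A', In G m a' x := by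
      constructor
      · rintro ⟨a', h1, h2⟩
        rcases mem_insert.1 h1 with h1 | h1
        · exact absurd (h1 ▸ h2) hx
        · exact ⟨a', h1, h2⟩
      · rintro ⟨a', h1, h2⟩
        exact ⟨a', mem_insert_of_mem h1, h2⟩
    by_cases h : ∃ a' ∈ A', In G m a' x
    · rw [if_pos h, if_pos (this.2 h)]
    · rw [if_neg h, if_neg (fun h' => h (this.1 h'))]
  have same : ph' G m b A j (insert a A') T = ph' G m b A j A' T := by
    unfold ph'
    split_ifs with h
    · exact prod_congr rfl fun x hx => om_eq T x (hTa x hx)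
    · rfl
  rw [same]
  congr 1
  have hnot : ∀ r < m a, xr G a r ∉ T := fun r hr h => hTa _ h (in_xr hr)
  by_cases hS : Sg G b (insert (xr G a 0) T) ∧ T.card + 1 = j
  · obtain ⟨hS, hj⟩ := hS
    have hSr : ∀ r < m a, Sg G b (insert (xr G a r) T) := fun r hr => (inv_all ho hT hb ha hTa hr).1.2 hS
    have hprod : ∀ r < m a, ∏ x ∈ T, om' G m b A A' (insert (xr G a r) T) x = ∏ x ∈ T, om' G m b A A' (insert (xr G a 0) T) x := by
      intro r hr
      refine prod_congr rfl fun x hx => ?_
      have h2 := (inv_all ho hT hb ha hTa hr).2.1 x (hTa x hx)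
      have h3 := vS_inv ho hT hb ha hTa hr (hTa x hx)
      unfold om'
      by_cases h4 : ∃ a' ∈ A', In G m a' x
      · rw [if_pos h4, if_pos h4]
        by_cases h5 : Bef G b (insert (xr G a 0) T) x (G.op x)
        · rw [if_pos h5, if_pos (h2.2 h5)]
        · rw [if_neg h5, if_neg fun h6 => h5 (h2.1 h6)]
      · rw [if_neg h4, if_neg h4, h3]
    have l1 : ∑ r ∈ range (m a), ph' G m b A j A' (insert (xr G a r) T) =
        (∏ x ∈ T, om' G m b A A' (insert (xr G a 0) T) x) * ∑ r ∈ range (m a), va G m b (insert (xr G a r) T) a (xr G a r) := by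
      rw [mul_sum]
      refine sum_congr rfl fun r hr => ?_
      rw [mem_range] at hr
      unfold ph'
      rw [if_pos ⟨hSr r hr, by rw [card_insert_of_notMem (hnot r hr), hj]⟩, prod_insert (hnot r hr), hprod r hr]
      have : om' G m b A A' (insert (xr G a r) T) (xr G a r) = va G m b (insert (xr G a r) T) a (xr G a r) := by
        unfold om'
        rw [if_neg]
        · exact vS_eq hT ha (in_xr hr) _
        · rintro ⟨a', h1, h2⟩
          exact haA (in_unique hT ha (hA' h1) (in_xr hr) h2 ▸ h1)
      rw [this, mul_comm]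
    have l2 : ∑ r ∈ range (m a), ph' G m b A j (insert a A') (insert (xr G a r) T) =
        (∏ x ∈ T, om' G m b A A' (insert (xr G a 0) T) x) *
          (((range (m a)).filter fun r => Bef G b (insert (xr G a r) T) (xr G a r) (G.op (xr G a r))).card : ℝ) := by
      rw [card_filter, Nat.cast_sum, mul_sum]
      refine sum_congr rfl fun r hr => ?_
      rw [mem_range] at hr
      unfold ph'
      rw [if_pos ⟨hSr r hr, by rw [card_insert_of_notMem (hnot r hr), hj]⟩, prod_insert (hnot r hr)]
      have e1 : ∏ x ∈ T, om' G m b A (insert a A') (insert (xr G a r) T) x = ∏ x ∈ T, om' G m b A A' (insert (xr G a 0) T) x := by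
        rw [← hprod r hr]
        exact prod_congr rfl fun x hx => om_eq _ x (hTa x hx)
      have e2 : om' G m b A (insert a A') (insert (xr G a r) T) (xr G a r) =
          if Bef G b (insert (xr G a r) T) (xr G a r) (G.op (xr G a r)) then 1 else 0 := by
        unfold om'
        rw [if_pos ⟨a, mem_insert_self _ _, in_xr hr⟩]
      rw [e1, e2, mul_comm]
      push_cast
      rfl
    rw [l1, l2, exact_one ho hT hb ha hTa hS]
  · have z : ∀ B : Finset P, ∑ r ∈ range (m a), ph' G m b A j B (insert (xr G a r) T) = 0 := by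
      intro B
      refine sum_eq_zero fun r hr => ?_
      rw [mem_range] at hr
      unfold ph'
      rw [if_neg]
      rintro ⟨h1, h2⟩
      exact hS ⟨(inv_all ho hT hb ha hTa hr).1.1 h1, by rw [card_insert_of_notMem (hnot r hr)] at h2; exact h2⟩
    rw [z, z]

/-- **The exact count.** -/
theorem count_eq (ho : ∀ i, G.op i ≠ i) (hT : Twist G A m) (hb : b ∈ A) {nab : Dg G → Polynomial ℤ} (h : Cw Polynomial.X 1 b nab) (D : Dg G)
    (hD : ∀ i, D.st i = .pos) (j : ℕ) :
    ((nab D).coeff j : ℝ) = ∑ S ∈ ((Xs G).powersetCard j).filter (fun S => Sg G b S), ∏ x ∈ S, vS G m b A S x := by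
  have e0 : ∑ S ∈ ((Xs G).powersetCard j).filter (fun S => Sg G b S), ∏ x ∈ S, vS G m b A S x = ∑ S ∈ (Xs G).powerset, ph' G m b A j ∅ S := by
    rw [sum_filter, powersetCard_eq_filter, sum_filter]
    refine sum_congr rfl fun S _ => ?_
    unfold ph'
    by_cases h1 : S.card = j
    · by_cases h2 : Sg G b S
      · rw [if_pos h1, if_pos h2, if_pos ⟨h2, h1⟩]
        refine prod_congr rfl fun x _ => ?_
        unfold om'
        rw [if_neg (by simp)]
      · rw [if_pos h1, if_neg h2, if_neg fun h3 => h2 h3.1]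
    · rw [if_neg h1, if_neg fun h3 => h1 h3.2]
  have e1 : ((nab D).coeff j : ℝ) = ∑ S ∈ (Xs G).powerset, ph' G m b A j A S := by
    rw [coeff_eq ho h D hD j]
    push_cast
    rw [card_filter, powersetCard_eq_filter, sum_filter]
    push_cast
    refine sum_congr rfl fun S _ => ?_
    have hom : ∀ x, om' G m b A A S x = if Bef G b S x (G.op x) then 1 else 0 := by
      intro x
      unfold om'
      rw [if_pos]
      obtain ⟨a, ha, r, hr, hx⟩ := hT.cov x
      exact ⟨a, ha, r, hr, hx⟩
    have hr : ph' G m b A j A S = if Sg G b S ∧ S.card = j then ∏ x ∈ S, (if Bef G b S x (G.op x) then (1 : ℝ) else 0) else 0 := by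
      unfold ph'
      simp only [hom]
    rw [hr]
    by_cases h1 : S.card = j
    · rw [if_pos h1]
      by_cases h2 : Sg G b S
      · rw [if_pos (show Sg G b S ∧ S.card = j from ⟨h2, h1⟩)]
        by_cases h3 : ∀ i ∈ S, Bef G b S i (G.op i)
        · rw [if_pos (show Sg G b S ∧ ∀ i ∈ S, Bef G b S i (G.op i) from ⟨h2, h3⟩), prod_congr rfl fun x hx => if_pos (h3 x hx), prod_const_one]
        · rw [if_neg (show ¬ (Sg G b S ∧ ∀ i ∈ S, Bef G b S i (G.op i)) from fun h4 => h3 h4.2)]
          push Not at h3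
          obtain ⟨x, hx, h4⟩ := h3
          exact (prod_eq_zero hx (by rw [if_neg h4])).symm
      · rw [if_neg (show ¬ (Sg G b S ∧ ∀ i ∈ S, Bef G b S i (G.op i)) from fun h4 => h2 h4.1),
          if_neg (show ¬ (Sg G b S ∧ S.card = j) from fun h4 => h2 h4.1)]
    · rw [if_neg h1, if_neg (show ¬ (Sg G b S ∧ S.card = j) from fun h4 => h1 h4.2)]
  rw [e0, e1]
  have key : ∀ A' ⊆ A, ∑ S ∈ (Xs G).powerset, ph' G m b A j ∅ S = ∑ S ∈ (Xs G).powerset, ph' G m b A j A' S := by
    intro A'
    induction A' using Finset.induction_on with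
    | empty => intro _; rfl
    | insert a A' haA ih =>
      intro hsub
      have hA' : A' ⊆ A := (subset_insert _ _).trans hsub
      have ha : a ∈ A := hsub (mem_insert_self _ _)
      exact (ih hA').trans (estep ho hT hb j hA' ha haA)
  exact (key A subset_rfl).symm

end Pool.Agent.Helper61.TW
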