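import Pool.Agent.Helper60.PD.Exist
import Pool.Agent.Helper85.AT.Fin

/-!
# Antiparallel twist regions: a one circuit state misses a region of odd length

In a plane diagram the parity `q` of the index changes at every passage along the link and between the two passages of a crossing (`exists_col`). Suppose that the smoothed set `S` meets every
region of odd length. Then the travel goes through an even number of crossings, not counting smoothed ones, between two entries into regions: `ff`, the parity of the index at the last entry, is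
constant along the travel. But the two entries of a region of odd length have different parities.
-/

set_option autoImplicit false

namespace Pool.Agent.Helper61.TW

open Pool.Agent.Helper85.Exp Pool.Agent.Helper60.EV2 Pool.Agent.Helper43.Pln Pool.Agent.Helper2.PD Pool.Agent.Helper85.AT Classical

variable {P : Type} {G : Sh P} {A : Finset P} {m : P → ℕ}

/-- The parity of the index of a plane diagram. -/
theorem exists_col [Fintype P] (h : Plane G) : ∃ q : P → Bool, (∀ i, q (G.nxt i) = !q i) ∧ ∀ i, q (G.op i) = !q i := by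
  obtain ⟨k, hk⟩ := exists_kappa h.conn h.cross h.genus
  obtain ⟨κ, ix⟩ : ∃ κ : P → ℤ, Ix G κ := ⟨_, Pool.Agent.Helper60.PD.ix_of h.cross hk⟩
  have key : ∀ i, (κ (G.nxt i) + κ i) % 2 = 1 ∧ (κ (G.op i) + κ i) % 2 = 1 := by
    intro i
    cases hl : G.lf i with
    | true =>
      obtain ⟨h1, h2, h3⟩ := ix.cr i (h.cross i) hl
      omega
    | false =>
      have hl' : G.lf (G.op i) = true := by rw [G.lf_op i (h.cross i), hl]; rfl
      obtain ⟨h1, h2, h3⟩ := ix.cr (G.op i) (h.cross _) hl'
      rw [G.op_op] at h1 h2 h3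
      omega
  refine ⟨fun i => decide (κ i % 2 = 1), fun i => ?_, fun i => ?_⟩
  · have h1 := (key i).1
    show decide (κ (G.nxt i) % 2 = 1) = !decide (κ i % 2 = 1)
    rw [← decide_not]
    exact decide_eq_decide.2 (by omega)
  · have h1 := (key i).2
    show decide (κ (G.op i) % 2 = 1) = !decide (κ i % 2 = 1)
    rw [← decide_not]
    exact decide_eq_decide.2 (by omega)

/-- `true` for odd numbers -/
def pr (r : ℕ) : Bool := decide (r % 2 = 1)

theorem pr_succ (r : ℕ) : pr (r + 1) = !pr r := by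
  unfold pr
  rw [← decide_not]
  exact decide_eq_decide.2 (by omega)

theorem q_iter {q : P → Bool} (q1 : ∀ i, q (G.nxt i) = !q i) (a : P) (r : ℕ) : q (G.nxt^[r] a) = xor (q a) (pr r) := by
  induction r with
  | zero => simp [pr]
  | succ r ih =>
    rw [Function.iterate_succ_apply', q1, ih, pr_succ]
    cases q a <;> cases pr r <;> rfl

/-- the crossing at the place `s` of the region of `a` is smoothed -/
def MM (G : Sh P) (S : Finset P) (a : P) (s : ℕ) : Prop := G.nxt^[s] a ∈ S ∨ G.op (G.nxt^[s] a) ∈ S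

/-- the last entry before `x` into the region of `a` is the second one -/
def sd2 (G : Sh P) (m : P → ℕ) (S : Finset P) (a x : P) : Prop :=
  (∃ r < m a, x = G.nxt^[r] a ∧ ∃ s < r, MM G S a s) ∨ ∃ r < m a, x = G.op (G.nxt^[r] a) ∧ ∃ s ≤ r, MM G S a s

/-- the parity of the index at the last entry before `x` -/
noncomputable def ff (hT : Twist G A m) (q : P → Bool) (S : Finset P) (x : P) : Bool :=
  if sd2 G m S (reg hT x) x then xor (q (reg hT x)) (pr (m (reg hT x))) else q (reg hT x)

theorem ff_fwd (hT : Twist G A m) (ho : ∀ i, G.op i ≠ i) (q : P → Bool) (S : Finset P) {a : P} (ha : a ∈ A) {r : ℕ} (hr : r < m a) :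
    ff hT q S (G.nxt^[r] a) = if ∃ s < r, MM G S a s then xor (q a) (pr (m a)) else q a := by
  have e : reg hT (G.nxt^[r] a) = a := reg_eq hT ha hr (Or.inl rfl)
  unfold ff
  rw [e]
  have h : sd2 G m S a (G.nxt^[r] a) ↔ ∃ s < r, MM G S a s := by
    constructor
    · rintro (⟨r', hr', h1, h2⟩ | ⟨r', hr', h1, h2⟩)
      · have := (hT.inj a ha a ha r hr r' hr' (Or.inl h1)).2
        rw [this]
        exact h2
      · have := (hT.inj a ha a ha r hr r' hr' (Or.inr h1)).2
        rw [← this] at h1
        exact absurd h1.symm (ho _)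
    · intro h2
      exact Or.inl ⟨r, hr, rfl, h2⟩
  by_cases h3 : ∃ s < r, MM G S a s
  · rw [if_pos h3, if_pos (h.2 h3)]
  · rw [if_neg h3, if_neg fun h4 => h3 (h.1 h4)]

theorem ff_bwd (hT : Twist G A m) (ho : ∀ i, G.op i ≠ i) (q : P → Bool) (S : Finset P) {a : P} (ha : a ∈ A) {r : ℕ} (hr : r < m a) :
    ff hT q S (G.op (G.nxt^[r] a)) = if ∃ s ≤ r, MM G S a s then xor (q a) (pr (m a)) else q a := by
  have e : reg hT (G.op (G.nxt^[r] a)) = a := reg_eq hT ha hr (Or.inr rfl)
  unfold ff
  rw [e]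
  have h : sd2 G m S a (G.op (G.nxt^[r] a)) ↔ ∃ s ≤ r, MM G S a s := by
    constructor
    · rintro (⟨r', hr', h1, h2⟩ | ⟨r', hr', h1, h2⟩)
      · have := (hT.inj a ha a ha r' hr' r hr (Or.inr h1.symm)).2
        rw [this] at h1
        exact absurd h1 (ho _)
      · have := (hT.inj a ha a ha r hr r' hr' (Or.inl (op_inj G h1))).2
        rw [this]
        exact h2
    · intro h2
      exact Or.inr ⟨r, hr, rfl, h2⟩
  by_cases h3 : ∃ s ≤ r, MM G S a s
  · rw [if_pos h3, if_pos (h.2 h3)]
  · rw [if_neg h3, if_neg fun h4 => h3 (h.1 h4)]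

/-- the entries -/
theorem ff_entry (hT : Twist G A m) (ho : ∀ i, G.op i ≠ i) {q : P → Bool} (q1 : ∀ i, q (G.nxt i) = !q i) (q2 : ∀ i, q (G.op i) = !q i) {S : Finset P}
    (hall : ∀ a ∈ A, Odd (m a) → ∃ s < m a, MM G S a s) {y : P}
    (h1 : ∀ a ∈ A, ∀ r, r + 1 < m a → y ≠ G.nxt^[r + 1] a) (h2 : ∀ a ∈ A, ∀ r, r + 1 < m a → y ≠ G.op (G.nxt^[r] a)) : ff hT q S y = q y := by
  obtain ⟨a, ha, r, hr, h | h⟩ := hT.cov y
  · cases r with
    | succ r => exact absurd h (h1 a ha r hr)
    | zero =>
      rw [h, ff_fwd hT ho q S ha hr, if_neg]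
      · rfl
      · rintro ⟨s, hs, _⟩
        omega
  · have hr1 : r + 1 = m a := by
      by_contra hne
      exact h2 a ha r (by omega) h
    rw [h, ff_bwd hT ho q S ha hr, q2, q_iter q1]
    have e : (!xor (q a) (pr r)) = xor (q a) (pr (m a)) := by
      rw [← hr1, pr_succ]
      cases q a <;> cases pr r <;> rfl
    rw [e]
    by_cases h3 : ∃ s ≤ r, MM G S a s
    · rw [if_pos h3]
    · rw [if_neg h3]
      have h4 : ¬ Odd (m a) := by
        intro h5
        obtain ⟨s, hs, h6⟩ := hall a ha h5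
        exact h3 ⟨s, by omega, h6⟩
      have h5 : pr (m a) = false := by
        unfold pr
        rw [decide_eq_false_iff_not]
        intro h6
        exact h4 (Nat.odd_iff.2 h6)
      rw [h5]
      cases q a <;> rfl

/-- the first exit -/
theorem ff_exit1 (hT : Twist G A m) (ho : ∀ i, G.op i ≠ i) {q : P → Bool} (q1 : ∀ i, q (G.nxt i) = !q i) (q2 : ∀ i, q (G.op i) = !q i) {S : Finset P}
    (hall : ∀ a ∈ A, Odd (m a) → ∃ s < m a, MM G S a s) {a : P} (ha : a ∈ A) {r : ℕ} (hr : r + 1 = m a) :
    ff hT q S (G.nxt (G.nxt^[r] a)) = xor (q a) (pr (m a)) := by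
  have e1 : q (G.nxt (G.nxt^[r] a)) = xor (q a) (pr (m a)) := by
    rw [← Function.iterate_succ_apply' G.nxt r a, q_iter q1, ← hr]
  rw [ff_entry hT ho q1 q2 hall, e1]
  · intro a' ha' r' hr' h
    rw [Function.iterate_succ_apply'] at h
    have h3 := G.nxt.injective h
    obtain ⟨h4, h5⟩ := hT.inj a ha a' ha' r (by omega) r' (by omega) (Or.inl h3)
    subst h4
    omega
  · intro a' ha' r' hr' h
    rw [← hT.big a' ha' r' hr'] at h
    have h3 := G.nxt.injective h
    obtain ⟨h4, h5⟩ := hT.inj a ha a' ha' r (by omega) (r' + 1) hr' (Or.inr h3)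
    subst h4
    rw [← h5] at h3
    exact ho _ h3.symm

/-- the second exit -/
theorem ff_exit2 (hT : Twist G A m) (ho : ∀ i, G.op i ≠ i) {q : P → Bool} (q1 : ∀ i, q (G.nxt i) = !q i) (q2 : ∀ i, q (G.op i) = !q i) {S : Finset P}
    (hall : ∀ a ∈ A, Odd (m a) → ∃ s < m a, MM G S a s) {a : P} (ha : a ∈ A) : ff hT q S (G.nxt (G.op a)) = q a := by
  have hm := hT.pos a ha
  rw [ff_entry hT ho q1 q2 hall, q1, q2, Bool.not_not]
  · intro a' ha' r' hr' h
    rw [Function.iterate_succ_apply'] at h
    have h3 := G.nxt.injective h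
    obtain ⟨h4, h5⟩ := hT.inj a' ha' a ha r' (by omega) 0 (by omega) (Or.inr h3.symm)
    subst h4
    subst h5
    exact ho _ h3
  · intro a' ha' r' hr' h
    rw [← hT.big a' ha' r' hr'] at h
    have h3 := op_inj G (G.nxt.injective h)
    obtain ⟨h4, h5⟩ := hT.inj a ha a' ha' 0 (by omega) (r' + 1) hr' (Or.inl h3)
    omega

/-- `ff` is constant along the travel. -/
theorem ff_trS (hT : Twist G A m) (ho : ∀ i, G.op i ≠ i) {q : P → Bool} (q1 : ∀ i, q (G.nxt i) = !q i) (q2 : ∀ i, q (G.op i) = !q i) {S : Finset P}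
    (hall : ∀ a ∈ A, Odd (m a) → ∃ s < m a, MM G S a s) (x : P) : ff hT q S (trS G S x) = ff hT q S x := by
  have hn : ∀ a s, G.nxt (G.nxt^[s] a) = G.nxt^[s + 1] a := fun a s => (Function.iterate_succ_apply' G.nxt s a).symm
  -- a region without smoothed crossings has even length
  have hev : ∀ a ∈ A, (¬ ∃ s < m a, MM G S a s) → xor (q a) (pr (m a)) = q a := by
    intro a ha h3
    have h5 : pr (m a) = false := by
      unfold pr
      rw [decide_eq_false_iff_not]
      intro h6
      exact h3 (hall a ha (Nat.odd_iff.2 h6))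
    rw [h5]
    cases q a <;> rfl
  -- the next passage on the first strand
  have fwd : ∀ a ∈ A, ∀ r < m a, ff hT q S (G.nxt (G.nxt^[r] a)) = if ∃ s ≤ r, MM G S a s then xor (q a) (pr (m a)) else q a := by
    intro a ha r hr
    rcases Nat.lt_or_ge (r + 1) (m a) with h1 | h1
    · rw [hn, ff_fwd hT ho q S ha h1]
      have : (∃ s < r + 1, MM G S a s) ↔ ∃ s ≤ r, MM G S a s := by
        constructor
        · rintro ⟨s, h2, h3⟩
          exact ⟨s, by omega, h3⟩
        · rintro ⟨s, h2, h3⟩
          exact ⟨s, by omega, h3⟩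
      by_cases h3 : ∃ s ≤ r, MM G S a s
      · rw [if_pos h3, if_pos (this.2 h3)]
      · rw [if_neg h3, if_neg fun h4 => h3 (this.1 h4)]
    · rw [ff_exit1 hT ho q1 q2 hall ha (by omega)]
      by_cases h3 : ∃ s ≤ r, MM G S a s
      · rw [if_pos h3]
      · rw [if_neg h3]
        refine hev a ha ?_
        rintro ⟨s, h4, h5⟩
        exact h3 ⟨s, by omega, h5⟩
  -- the next passage on the second strand
  have bwd : ∀ a ∈ A, ∀ r < m a, ff hT q S (G.nxt (G.op (G.nxt^[r] a))) = if ∃ s < r, MM G S a s then xor (q a) (pr (m a)) else q a := by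
    intro a ha r hr
    cases r with
    | zero =>
      rw [if_neg (by rintro ⟨s, h1, _⟩; omega)]
      exact ff_exit2 hT ho q1 q2 hall ha
    | succ r =>
      rw [hT.big a ha r hr, ff_bwd hT ho q S ha (by omega)]
      have : (∃ s < r + 1, MM G S a s) ↔ ∃ s ≤ r, MM G S a s := by
        constructor
        · rintro ⟨s, h2, h3⟩
          exact ⟨s, by omega, h3⟩
        · rintro ⟨s, h2, h3⟩
          exact ⟨s, by omega, h3⟩
      by_cases h3 : ∃ s ≤ r, MM G S a s
      · rw [if_pos h3, if_pos (this.2 h3)]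
      · rw [if_neg h3, if_neg fun h4 => h3 (this.1 h4)]
  obtain ⟨a, ha, r, hr, h | h⟩ := hT.cov x
  · rw [h, ff_fwd hT ho q S ha hr]
    by_cases h1 : MM G S a r
    · rw [Pool.Agent.Helper41.TW.trS_of h1]
      exact bwd a ha r hr
    · rw [Pool.Agent.Helper41.TW.trS_of_not h1, fwd a ha r hr]
      have : (∃ s ≤ r, MM G S a s) ↔ ∃ s < r, MM G S a s := by
        constructor
        · rintro ⟨s, h2, h3⟩
          refine ⟨s, ?_, h3⟩
          rcases Nat.lt_or_ge s r with h4 | h4
          · exact h4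
          · have : s = r := by omega
            rw [this] at h3
            exact absurd h3 h1
        · rintro ⟨s, h2, h3⟩
          exact ⟨s, by omega, h3⟩
      by_cases h3 : ∃ s < r, MM G S a s
      · rw [if_pos h3, if_pos (this.2 h3)]
      · rw [if_neg h3, if_neg fun h4 => h3 (this.1 h4)]
  · rw [h, ff_bwd hT ho q S ha hr]
    by_cases h1 : MM G S a r
    · have h2 : G.op (G.nxt^[r] a) ∈ S ∨ G.op (G.op (G.nxt^[r] a)) ∈ S := by
        rw [G.op_op]
        exact h1.symm
      rw [Pool.Agent.Helper41.TW.trS_of h2, G.op_op]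
      exact fwd a ha r hr
    · have h2 : ¬ (G.op (G.nxt^[r] a) ∈ S ∨ G.op (G.op (G.nxt^[r] a)) ∈ S) := by
        rw [G.op_op]
        exact fun h3 => h1 h3.symm
      rw [Pool.Agent.Helper41.TW.trS_of_not h2, bwd a ha r hr]
      have : (∃ s ≤ r, MM G S a s) ↔ ∃ s < r, MM G S a s := by
        constructor
        · rintro ⟨s, h2, h3⟩
          refine ⟨s, ?_, h3⟩
          rcases Nat.lt_or_ge s r with h4 | h4
          · exact h4
          · have : s = r := by omega
            rw [this] at h3
            exact absurd h3 h1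
        · rintro ⟨s, h2, h3⟩
          exact ⟨s, by omega, h3⟩
      by_cases h3 : ∃ s < r, MM G S a s
      · rw [if_pos h3, if_pos (this.2 h3)]
      · rw [if_neg h3, if_neg fun h4 => h3 (this.1 h4)]

/-- **A one circuit state misses a region of odd length**, if there are any. -/
theorem misses_odd [Fintype P] (hG : Plane G) (hT : Twist G A m) {b : P} {S : Finset P} (hS : Sg G b S) {a : P} (ha : a ∈ A) (hodd : Odd (m a)) :
    ∃ a' ∈ A, Odd (m a') ∧ ∀ s < m a', ¬ (G.nxt^[s] a' ∈ S ∨ G.op (G.nxt^[s] a') ∈ S) := by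
  by_contra hcon
  have hall : ∀ a ∈ A, Odd (m a) → ∃ s < m a, MM G S a s := by
    intro a' ha' ho'
    by_contra h1
    exact hcon ⟨a', ha', ho', fun s hs h2 => h1 ⟨s, hs, h2⟩⟩
  obtain ⟨q, q1, q2⟩ := exists_col hG
  have ho := hG.cross
  have hc : ∀ k : ℕ, ff hT q S ((trS G S)^[k] b) = ff hT q S b := by
    intro k
    induction k with
    | zero => rfl
    | succ k ih => rw [Function.iterate_succ_apply', ff_trS hT ho q1 q2 hall, ih]
  have hall2 : ∀ x, ff hT q S x = ff hT q S b := by
    intro x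
    obtain ⟨k, hk⟩ := hS x
    rw [← hk]
    exact hc k
  obtain ⟨s0, hs0, hM⟩ := hall a ha hodd
  have hm := hT.pos a ha
  have e1 : ff hT q S a = q a := by
    have := ff_fwd hT ho q S ha (r := 0) (by omega)
    rw [if_neg (by rintro ⟨s, h1, _⟩; omega)] at this
    exact this
  have e2 : ff hT q S (G.op (G.nxt^[m a - 1] a)) = xor (q a) (pr (m a)) := by
    rw [ff_bwd hT ho q S ha (by omega), if_pos ⟨s0, by omega, hM⟩]
  have h5 : pr (m a) = true := by
    unfold pr
    rw [decide_eq_true_iff]
    exact Nat.odd_iff.1 hodd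
  rw [h5] at e2
  have e3 := (hall2 a).trans (hall2 (G.op (G.nxt^[m a - 1] a))).symm
  rw [e1, e2] at e3
  cases hq : q a <;> rw [hq] at e3 <;> exact absurd e3 (by decide)

/-- the mean of the two products is `1` if there is at most one factor different from `1` -/
theorem EE_one {ι : Type*} {S : Finset ι} {y : ι → ℝ} (h : ∀ i ∈ S, ∀ j ∈ S, y i ≠ 0 → y j ≠ 0 → i = j) : EE S y = 1 := by
  by_cases h0 : ∃ i ∈ S, y i ≠ 0
  · obtain ⟨i, hi, hy⟩ := h0
    have hz : ∀ j ∈ S, j ≠ i → y j = 0 := by
      intro j hj hji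
      by_contra h1
      exact hji (h j hj i hi h1 hy)
    unfold EE
    rw [Finset.prod_eq_single i (fun j hj hji => by rw [hz j hj hji, add_zero]) (fun h1 => absurd hi h1),
      Finset.prod_eq_single i (fun j hj hji => by rw [hz j hj hji, sub_zero]) (fun h1 => absurd hi h1)]
    ring
  · have hz : ∀ j ∈ S, y j = 0 := by
      intro j hj
      by_contra h1
      exact h0 ⟨j, hj, h1⟩
    have p1 : ∏ i ∈ S, (1 + y i) = 1 := Finset.prod_eq_one fun j hj => by rw [hz j hj, add_zero]
    have p2 : ∏ i ∈ S, (1 - y i) = 1 := Finset.prod_eq_one fun j hj => by rw [hz j hj, sub_zero]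
    unfold EE
    rw [p1, p2]
    norm_num

/-- at most one crossing of a one circuit state lies in a region of odd length, if there are at most two such regions -/
theorem one_odd [Fintype P] (hG : Plane G) (hT : Twist G A m) {b : P} (htwo : Two G A m b) (hc : (A.filter (fun a => Odd (m a))).card ≤ 2) {S : Finset P}
    (hlf : ∀ x ∈ S, G.lf x = true) (hS : Sg G b S) {x y : P} (hx : x ∈ S) (hy : y ∈ S) (h1 : Odd (m (reg hT x))) (h2 : Odd (m (reg hT y))) : x = y := by
  by_contra hne
  have hreg : reg hT x ≠ reg hT y := fun h => hne (reg_injOn hT hG.cross htwo hlf hS hx hy h)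
  obtain ⟨a, ha, ho, hmiss⟩ := misses_odd hG hT hS (reg_mem hT x) h1
  have key : ∀ z ∈ S, a ≠ reg hT z := by
    intro z hz h
    obtain ⟨r, hr, h3⟩ := reg_spec hT z
    rw [← h] at hr h3
    refine hmiss r hr ?_
    rcases h3 with h3 | h3
    · exact Or.inl (h3 ▸ hz)
    · exact Or.inr (h3 ▸ hz)
  have h3 : ({a, reg hT x, reg hT y} : Finset P) ⊆ A.filter (fun a => Odd (m a)) := by
    intro c hc'
    rw [Finset.mem_insert, Finset.mem_insert, Finset.mem_singleton] at hc'
    rw [Finset.mem_filter]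
    rcases hc' with rfl | rfl | rfl
    · exact ⟨ha, ho⟩
    · exact ⟨reg_mem hT x, h1⟩
    · exact ⟨reg_mem hT y, h2⟩
  have h4 := Finset.card_le_card h3
  have h5 : ({a, reg hT x, reg hT y} : Finset P).card = 3 := by
    rw [Finset.card_insert_of_notMem, Finset.card_insert_of_notMem, Finset.card_singleton]
    · rw [Finset.mem_singleton]
      exact hreg
    · rw [Finset.mem_insert, Finset.mem_singleton]
      rintro (h6 | h6)
      · exact key x hx h6
      · exact key y hy h6
  omega

/-- **At most two regions of odd length**: the polynomial is the one of the half weights. -/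
theorem coeff_two [Fintype P] (hG : Plane G) {hT : Twist G A m} {b : P} (N : Polynomial ℤ) {v : Finset P → P → ℝ} (h : Cnt hT b N v) (htwo : Two G A m b)
    (hc : (A.filter (fun a => Odd (m a))).card ≤ 2) (j : ℕ) : (N.coeff j : ℝ) = (gen G b (fun _ => 1 / 2)).coeff j := by
  rw [h.eq j, gen_coeff]
  refine Finset.sum_congr rfl fun S hS => ?_
  rw [Finset.mem_filter, Finset.mem_powersetCard] at hS
  have hlf : ∀ x ∈ S, G.lf x = true := fun x hx => by
    have := hS.1.1 hx
    simpa [Xs] using this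
  rw [EE_one, one_mul]
  have hodd : ∀ x ∈ S, 2 * v S x - 1 ≠ 0 → Odd (m (reg hT x)) := by
    intro x hx h1
    by_contra h2
    have h3 := h.bd S hS.2 x hx
    unfold xi at h3
    rw [if_neg h2] at h3
    exact h1 (abs_eq_zero.1 (le_antisymm h3 (abs_nonneg _)))
  intro x hx y hy h1 h2
  exact one_odd hG hT htwo hc hlf hS.2 hx hy (hodd x hx h1) (hodd y hy h2)

/-- **The zeros, at most two regions of odd length.** -/
theorem zeros_two [Fintype P] (hG : Plane G) {hT : Twist G A m} {b : P} (N : Polynomial ℤ) {v : Finset P → P → ℝ} (h : Cnt hT b N v) (htwo : Two G A m b)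
    (hc : (A.filter (fun a => Odd (m a))).card ≤ 2) {z : ℂ} (hz : Polynomial.aeval z N = 0) : z.re = 0 := by
  have hw : ∀ x : P, (0 : ℝ) < (fun _ => 1 / 2 : P → ℝ) x := fun _ => by norm_num
  have e1 : N.map (Int.castRingHom ℝ) = gen G b (fun _ => 1 / 2) := by
    ext j
    rw [Polynomial.coeff_map]
    exact coeff_two hG N h htwo hc j
  have e2 : Polynomial.aeval z (gen G b (fun _ => 1 / 2)) = 0 := by
    rw [← e1]
    have : Polynomial.aeval z (N.map (Int.castRingHom ℝ)) = Polynomial.aeval z N := by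
      rw [Polynomial.aeval_def, Polynomial.aeval_def, Polynomial.eval₂_map]
      congr 1
    rw [this, hz]
  have h1 : ¬ 0 < z.re := fun h => gen_ne hG b (fun _ => 1 / 2) hw h e2
  have h2 : ¬ 0 < (-z).re := fun h => gen_ne hG b (fun _ => 1 / 2) hw h (aeval_neg_of_par (fun j k hj hk => gen_par hG b (fun _ => 1 / 2) hj hk) e2)
  rw [Complex.neg_re] at h2
  linarith

/-- **The zeros.** -/
theorem fin_zeros_two [Fintype P] (hG : Plane G) {nab : Dg G → Polynomial ℤ} (hn : Cs nab) (hT : Twist G A m)
    (hc : (A.filter (fun a => Odd (m a))).card ≤ 2) {z : ℂ} (hz : Polynomial.aeval z (nab (allPos G)) = 0) : z.re = 0 := by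
  obtain ⟨b, hb⟩ := exists_base' hG hT
  exact zeros_two hG (nab (allPos G)) (cnt hG hn hT hb) (two_all' hT hG.cross b) hc hz

end Pool.Agent.Helper61.TW
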