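import Pool.Agent.Helper61.TW.TwoOdd

/-!
# Antiparallel twist regions: the inequality, with one longest region of odd length left out
-/

set_option autoImplicit false

namespace Pool.Agent.Helper61.TW

open Polynomial Pool.Agent.Helper85.Exp Pool.Agent.Helper60.EV2 Pool.Agent.Helper43.Pln Pool.Agent.Helper2.PD Pool.Agent.Helper85.AT Classical

theorem OO_nonneg {ι : Type*} (S : Finset ι) {x : ι → ℝ} (hx : ∀ i ∈ S, 0 ≤ x i) : 0 ≤ OO S x := by
  have h := (quad (S := S) (x := x) (y := x) fun i hi => by rw [abs_of_nonneg (hx i hi)]).2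
  exact (abs_nonneg _).trans h

/-- leaving out the smallest factor -/
theorem EE_erase_le {ι : Type*} {A : Finset ι} {x : ι → ℝ} (hx : ∀ i ∈ A, 0 ≤ x i) {a a' : ι} (ha : a ∈ A) (ha' : a' ∈ A) (h : x a ≤ x a') :
    EE (A.erase a') x ≤ EE (A.erase a) x := by
  by_cases hne : a = a'
  · rw [hne]
  have e1 : A.erase a' = insert a ((A.erase a').erase a) := by
    rw [Finset.insert_erase]
    exact Finset.mem_erase.2 ⟨hne, ha⟩
  have e2 : A.erase a = insert a' ((A.erase a').erase a) := by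
    rw [Finset.erase_right_comm, Finset.insert_erase]
    exact Finset.mem_erase.2 ⟨fun h => hne h.symm, ha'⟩
  have n1 : a ∉ (A.erase a').erase a := Finset.notMem_erase _ _
  have n2 : a' ∉ (A.erase a').erase a := by
    intro h
    exact Finset.notMem_erase _ _ (Finset.mem_erase.1 h).2
  rw [e1, e2, EE_insert n1, EE_insert n2]
  have h0 : 0 ≤ OO ((A.erase a').erase a) x :=
    OO_nonneg _ fun i hi => hx i (Finset.mem_of_mem_erase (Finset.mem_of_mem_erase hi))
  have := mul_le_mul_of_nonneg_right h h0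
  linarith

variable {P : Type} {G : Sh P} {A : Finset P} {m : P → ℕ}

/-- the sum of the two products over the regions of odd length except `a1` -/
theorem VV_erase (A : Finset P) (m : P → ℕ) (a1 : P) :
    ∏ a ∈ (A.filter (fun a => Odd (m a))).erase a1, (1 + 1 / (m a : ℝ)) + ∏ a ∈ (A.filter (fun a => Odd (m a))).erase a1, (1 - 1 / (m a : ℝ)) =
      2 * EE (A.erase a1) (xi m) := by
  have e : (A.filter (fun a => Odd (m a))).erase a1 = (A.erase a1).filter (fun a => Odd (m a)) := by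
    ext a
    simp only [Finset.mem_erase, Finset.mem_filter]
    tauto
  rw [e]
  exact VV_eq (A.erase a1) m

variable [Fintype P]

theorem EE_reg_erase (hG : Plane G) (hT : Twist G A m) {b : P} (htwo : Two G A m b) {a1 : P} (hmax : ∀ a ∈ A, Odd (m a) → m a ≤ m a1)
    {S : Finset P} (hlf : ∀ x ∈ S, G.lf x = true) (hS : Sg G b S) : EE S (fun x => xi m (reg hT x)) ≤ EE (A.erase a1) (xi m) := by
  have hinj := reg_injOn hT hG.cross htwo hlf hS
  have e : EE S (fun x => xi m (reg hT x)) = EE (S.image (reg hT)) (xi m) := by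
    unfold EE
    rw [Finset.prod_image hinj, Finset.prod_image hinj]
  rw [e]
  have hsub : S.image (reg hT) ⊆ A := by
    intro a ha
    rw [Finset.mem_image] at ha
    obtain ⟨x, _, rfl⟩ := ha
    exact reg_mem hT x
  have h0 : ∀ B : Finset P, ∀ a ∈ B, 0 ≤ xi m a := fun _ a _ => xi_nonneg m a
  by_cases h1 : a1 ∈ A ∧ Odd (m a1)
  · obtain ⟨a', ha', ho', hmiss⟩ := misses_odd hG hT hS h1.1 h1.2
    have hsub2 : S.image (reg hT) ⊆ A.erase a' := by
      intro a ha
      rw [Finset.mem_erase]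
      refine ⟨?_, hsub ha⟩
      rintro rfl
      rw [Finset.mem_image] at ha
      obtain ⟨x, hx, h⟩ := ha
      obtain ⟨r, hr, h3⟩ := reg_spec hT x
      rw [h] at hr h3
      refine hmiss r hr ?_
      rcases h3 with h3 | h3
      · exact Or.inl (h3 ▸ hx)
      · exact Or.inr (h3 ▸ hx)
    refine (EE_mono hsub2 (h0 _)).trans (EE_erase_le (h0 _) h1.1 ha' ?_)
    unfold xi
    rw [if_pos h1.2, if_pos ho']
    have h2 := hmax a' ha' ho'
    have h3 : (0 : ℝ) < m a' := by exact_mod_cast (hT.pos a' ha')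
    have h4 : (m a' : ℝ) ≤ m a1 := by exact_mod_cast h2
    exact one_div_le_one_div_of_le h3 h4
  · have h2 : EE (A.erase a1) (xi m) = EE A (xi m) := by
      by_cases h3 : a1 ∈ A
      · have h4 : ¬ Odd (m a1) := fun h => h1 ⟨h3, h⟩
        have h5 : xi m a1 = 0 := by
          unfold xi
          rw [if_neg h4]
        have h6 : A = insert a1 (A.erase a1) := (Finset.insert_erase h3).symm
        nth_rw 2 [h6]
        rw [EE_insert (Finset.notMem_erase _ _), h5, zero_mul, add_zero]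
      · rw [Finset.erase_eq_of_notMem h3]
    rw [h2]
    exact EE_mono hsub (h0 _)

theorem bound_erase (hG : Plane G) {hT : Twist G A m} {b : P} {N : ℤ[X]} {v : Finset P → P → ℝ} (h : Cnt hT b N v) (htwo : Two G A m b)
    {a1 : P} (hmax : ∀ a ∈ A, Odd (m a) → m a ≤ m a1) (j : ℕ) :
    |(N.coeff j : ℝ) - (gen G b (fun _ => 1 / 2)).coeff j| ≤ (EE (A.erase a1) (xi m) - 1) * (gen G b (fun _ => 1 / 2)).coeff j := by
  rw [h.eq j, gen_coeff, ← Finset.sum_sub_distrib, Finset.mul_sum]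
  refine (Finset.abs_sum_le_sum_abs _ _).trans (Finset.sum_le_sum fun S hS => ?_)
  rw [Finset.mem_filter, Finset.mem_powersetCard] at hS
  have hS2 : ∀ x ∈ S, G.lf x = true := fun x hx => by
    have := hS.1.1 hx
    simpa [Xs] using this
  have h0 : (0 : ℝ) ≤ ∏ _x ∈ S, (1 / 2 : ℝ) := Finset.prod_nonneg fun _ _ => by norm_num
  have e1 : EE S (fun x => 2 * v S x - 1) * ∏ _x ∈ S, (1 / 2 : ℝ) - ∏ _x ∈ S, (1 / 2 : ℝ) = (EE S (fun x => 2 * v S x - 1) - 1) * ∏ _x ∈ S, (1 / 2 : ℝ) := by ring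
  rw [e1, abs_mul, abs_of_nonneg h0]
  refine mul_le_mul_of_nonneg_right ?_ h0
  have h1 := (quad (S := S) (x := fun x => xi m (reg hT x)) (y := fun x => 2 * v S x - 1) (fun x hx => h.bd S hS.2 x hx)).1
  have h2 := EE_reg_erase hG hT htwo hmax hS2 hS.2
  linarith

/-- **From the symmetric count to the inequality.** (`lc_quad` with one longest region of odd length left out) -/
theorem lc_erase (hG : Plane G) {hT : Twist G A m} {b : P} (N : ℤ[X]) {v : Finset P → P → ℝ} (h : Cnt hT b N v) (htwo : Two G A m b)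
    {a1 : P} (hmax : ∀ a ∈ A, Odd (m a) → m a ≤ m a1)
    (hV : ((N.natDegree : ℝ) - N.natTrailingDegree + 2) * (2 * EE (A.erase a1) (xi m) - 2) ≤ 4) (i : ℕ) : N.coeff i * N.coeff (i + 4) ≤ N.coeff (i + 2) ^ 2 := by
  by_cases hi : N.coeff i = 0
  · rw [hi, zero_mul]
    exact sq_nonneg _
  by_cases hi4 : N.coeff (i + 4) = 0
  · rw [hi4, mul_zero]
    exact sq_nonneg _
  have hw : ∀ x : P, (0 : ℝ) < (fun _ => 1 / 2 : P → ℝ) x := fun _ => by norm_num
  have hA := gen_nonneg (G := G) b (fun _ => 1 / 2) hw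
  have hbd := bound_erase hG h htwo hmax
  have hU0 : 1 ≤ EE (A.erase a1) (xi m) := by
    have := (quad (S := A.erase a1) (x := xi m) (y := fun _ => 0) (fun a _ => by rw [abs_zero]; exact xi_nonneg m a)).1
    have h2 := abs_nonneg (EE (A.erase a1) (fun _ => (0 : ℝ)) - 1)
    linarith
  set U := EE (A.erase a1) (xi m) with hUdef
  set B := gen G b (fun _ => 1 / 2) with hBdef
  have hi1 : N.natTrailingDegree ≤ i := natTrailingDegree_le_of_ne_zero hi
  have hi2 : i + 4 ≤ N.natDegree := le_natDegree_of_ne_zero hi4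
  have hdeg : (4 : ℝ) ≤ (N.natDegree : ℝ) - N.natTrailingDegree := by
    have h1 : (N.natTrailingDegree : ℝ) ≤ i := by exact_mod_cast hi1
    have h2 : (i : ℝ) + 4 ≤ N.natDegree := by exact_mod_cast hi2
    linarith
  have hU1 : U ≤ 4 / 3 := by nlinarith
  have h1 : ∀ j, (2 - U) * B.coeff j ≤ (N.coeff j : ℝ) := fun j => by
    have := (abs_le.1 (hbd j)).1
    linarith
  have h2 : ∀ j, (N.coeff j : ℝ) ≤ U * B.coeff j := fun j => by
    have := (abs_le.1 (hbd j)).2
    linarith
  have hz : ∀ j, B.coeff j = 0 ↔ N.coeff j = 0 := by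
    intro j
    constructor
    · intro h
      have h3 := h1 j
      have h4 := h2 j
      rw [h, mul_zero] at h4
      rw [h, mul_zero] at h3
      have : (N.coeff j : ℝ) = 0 := le_antisymm h4 h3
      exact_mod_cast this
    · intro h
      have h3 := h1 j
      rw [h, Int.cast_zero] at h3
      have h4 := hA j
      nlinarith
  have hd : B.natDegree ≤ N.natDegree := by
    rw [natDegree_le_iff_coeff_eq_zero]
    intro j hj
    exact (hz j).2 (coeff_eq_zero_of_natDegree_lt hj)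
  have hA0 : B ≠ 0 := by
    intro h
    apply hi
    rw [← hz, h, coeff_zero]
  have ht : N.natTrailingDegree ≤ B.natTrailingDegree := by
    apply natTrailingDegree_le_of_ne_zero
    intro h
    rw [← hz] at h
    exact hA0 (trailingCoeff_eq_zero.1 h)
  have hN0 : N ≠ 0 := fun h => hi (by rw [h, coeff_zero])
  have hpar : N.natDegree % 2 = N.natTrailingDegree % 2 := by
    apply gen_par hG b (fun _ => 1 / 2)
    · rw [← hBdef]
      intro h
      rw [hz] at h
      exact hN0 (leadingCoeff_eq_zero.1 h)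
    · rw [← hBdef]
      intro h
      rw [hz] at h
      exact hN0 (trailingCoeff_eq_zero.1 h)
  have hdo : N.natTrailingDegree ≤ N.natDegree := natTrailingDegree_le_natDegree N
  obtain ⟨M, hM⟩ : ∃ M, N.natDegree = N.natTrailingDegree + 2 * M := ⟨(N.natDegree - N.natTrailingDegree) / 2, by omega⟩
  have hMpos : 2 ≤ M := by omega
  have hMr : (0 : ℝ) < M := by exact_mod_cast (by omega : 0 < M)
  have hnew := newton (M := M) hA (fun z hz => gen_ne hG b (fun _ => 1 / 2) hw hz) (fun j k hj hk => gen_par hG b (fun _ => 1 / 2) hj hk) (by omega) i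
  have hK2 : U ≤ (1 + 2 / (M : ℝ)) * (2 - U) := by
    rw [hM] at hV
    push_cast at hV
    have h5 : ((M : ℝ) + 1) * (U - 1) ≤ 1 := by linarith
    have h6 : (1 + 2 / (M : ℝ)) * (2 - U) - U = 2 * (1 - ((M : ℝ) + 1) * (U - 1)) / M := by
      field_simp
      ring
    have h7 : 0 ≤ 2 * (1 - ((M : ℝ) + 1) * (U - 1)) / M := div_nonneg (by linarith) hMr.le
    linarith
  have hc0 : ∀ j, 0 ≤ (N.coeff j : ℝ) := fun j => (mul_nonneg (by linarith) (hA j)).trans (h1 j)
  have h9 : (N.coeff i : ℝ) * N.coeff (i + 4) ≤ (U * B.coeff i) * (U * B.coeff (i + 4)) :=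
    mul_le_mul (h2 i) (h2 (i + 4)) (hc0 _) (mul_nonneg (by linarith) (hA i))
  have h10 : (U * B.coeff i) * (U * B.coeff (i + 4)) ≤ (2 - U) ^ 2 * ((1 + 2 / (M : ℝ)) ^ 2 * (B.coeff i * B.coeff (i + 4))) := by
    have h11 : U ^ 2 ≤ ((1 + 2 / (M : ℝ)) * (2 - U)) ^ 2 := pow_le_pow_left₀ (by linarith) hK2 2
    have h12 := mul_le_mul_of_nonneg_right h11 (mul_nonneg (hA i) (hA (i + 4)))
    nlinarith
  have h11 : (2 - U) ^ 2 * ((1 + 2 / (M : ℝ)) ^ 2 * (B.coeff i * B.coeff (i + 4))) ≤ (2 - U) ^ 2 * B.coeff (i + 2) ^ 2 :=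
    mul_le_mul_of_nonneg_left hnew (sq_nonneg _)
  have h13 : ((2 - U) * B.coeff (i + 2)) ^ 2 ≤ (N.coeff (i + 2) : ℝ) ^ 2 := pow_le_pow_left₀ (mul_nonneg (by linarith) (hA _)) (h1 _) 2
  rw [mul_pow] at h13
  have h14 : (N.coeff i : ℝ) * N.coeff (i + 4) ≤ (N.coeff (i + 2) : ℝ) ^ 2 := by linarith
  exact_mod_cast h14

/-- **The inequality.** -/
theorem fin_lc_erase (hG : Plane G) {nab : Dg G → ℤ[X]} (hn : Cs nab) (hT : Twist G A m) {a1 : P} (hmax : ∀ a ∈ A, Odd (m a) → m a ≤ m a1)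
    (hV : (((nab (allPos G)).natDegree : ℝ) - (nab (allPos G)).natTrailingDegree + 2) *
      (∏ a ∈ (A.filter (fun a => Odd (m a))).erase a1, (1 + 1 / (m a : ℝ)) + ∏ a ∈ (A.filter (fun a => Odd (m a))).erase a1, (1 - 1 / (m a : ℝ)) - 2) ≤ 4) :
    LogConcave G nab := by
  obtain ⟨b, hb⟩ := exists_base' hG hT
  rw [VV_erase] at hV
  exact lc_int (lc_erase hG (nab (allPos G)) (cnt hG hn hT hb) (two_all' hT hG.cross b) hmax hV) _

/-- **The inequality**, any decision of equality. -/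
theorem fin_lc_dec [hd : DecidableEq P] (hG : Plane G) {nab : Dg G → ℤ[X]} (hn : Cs nab) (hT : Twist G A m) {c : P} (hmax : ∀ a ∈ A, Odd (m a) → m a ≤ m c)
    (hV : (((nab (allPos G)).natDegree : ℝ) - (nab (allPos G)).natTrailingDegree + 2) *
      (∏ a ∈ (A.filter (fun a => Odd (m a))).erase c, (1 + 1 / (m a : ℝ)) + ∏ a ∈ (A.filter (fun a => Odd (m a))).erase c, (1 - 1 / (m a : ℝ)) - 2) ≤ 4) :
    LogConcave G nab := by
  have e : hd = fun a b => Classical.propDecidable (a = b) := Subsingleton.elim _ _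
  subst e
  exact fin_lc_erase hG hn hT hmax hV

end Pool.Agent.Helper61.TW
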